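import Mathlib

/-! Definitions: Ricci curvature of a Riemannian metric in coordinates and on manifolds, the
sphere `S²`, and two classes of metrics on `S² × N`. -/

set_option maxSynthPendingDepth 3
set_option linter.unusedSectionVars false
set_option linter.deprecated false

namespace Pool.Agent.Helper23.Ric

open Filter Topology
open scoped ContDiff Manifold

section coordinates

variable {E : Type*} [NormedAddCommGroup E] [NormedSpace ℝ E]

/-- The linear form `u ↦ ∂_v G(w,u)` at `z`. -/
noncomputable def dform₁ (G : E → E →L[ℝ] E →L[ℝ] ℝ) (z v w : E) : E →L[ℝ] ℝ :=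
  fderiv ℝ G z v w

/-- The linear form `u ↦ ∂_u G(v,w)` at `z`. -/
noncomputable def dform₂ (G : E → E →L[ℝ] E →L[ℝ] ℝ) (z v w : E) : E →L[ℝ] ℝ :=
  ((fderiv ℝ G z).flip v).flip w

/-- The Christoffel symbols `Γ(v,w)` of the metric `G` at `z`: the vector with
`G(Γ(v,w),u) = (∂_v G(w,u) + ∂_w G(v,u) - ∂_u G(v,w)) / 2` for all `u`. -/
noncomputable def chris (G : E → E →L[ℝ] E →L[ℝ] ℝ) (z v w : E) : E :=
  (G z).inverse ((1 / 2 : ℝ) • (dform₁ G z v w + dform₁ G z w v - dform₂ G z v w))

/-- The curvature `R(u,v)w` of the metric `G` at `z`. -/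
noncomputable def riem (G : E → E →L[ℝ] E →L[ℝ] ℝ) (z u v w : E) : E :=
  fderiv ℝ (fun y => chris G y v w) z u - fderiv ℝ (fun y => chris G y u w) z v
    + chris G z u (chris G z v w) - chris G z v (chris G z u w)

/-- The Ricci curvature `Ric(v,w) = tr (u ↦ R(u,v)w)` of the metric `G` at `z`. -/
noncomputable def ricci [FiniteDimensional ℝ E] (G : E → E →L[ℝ] E →L[ℝ] ℝ) (z v w : E) : ℝ :=
  ∑ i, (Module.finBasis ℝ E).coord i (riem G z (Module.finBasis ℝ E i) v w)

/-- `e` is orthonormal for the bilinear form `B`. -/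
def IsOrtho {n : ℕ} (B : E →L[ℝ] E →L[ℝ] ℝ) (e : Fin n → E) : Prop :=
  ∀ i j, B (e i) (e j) = if i = j then 1 else 0

end coordinates

section manifolds

variable {E : Type*} [NormedAddCommGroup E] [NormedSpace ℝ E] {H : Type*} [TopologicalSpace H]
  (I : ModelWithCorners ℝ E H) (M : Type*) [TopologicalSpace M] [ChartedSpace H M]

/-- Families of bilinear forms on the tangent spaces. -/
abbrev Forms := ∀ q : M, TangentSpace I q →L[ℝ] TangentSpace I q →L[ℝ] ℝ

variable {M}

/-- The expression of a family of bilinear forms in the preferred chart at `p`. -/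
noncomputable def inChart (g : Forms I M) (p : M) (z : E) : E →L[ℝ] E →L[ℝ] ℝ :=
  ContinuousLinearMap.bilinearComp (E := E) (F := E) (E' := E) (F' := E)
    (g ((extChartAt I p).symm z))
    (mfderiv 𝓘(ℝ, E) I (extChartAt I p).symm z) (mfderiv 𝓘(ℝ, E) I (extChartAt I p).symm z)

/-- symmetric forms -/
def SymmForms (g : Forms I M) : Prop := ∀ q v w, g q v w = g q w v

/-- positive definite forms -/
def PosForms (g : Forms I M) : Prop := ∀ q v, v ≠ 0 → 0 < g q v v

/-- smooth families of forms: smooth in the preferred chart at each point -/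
def SmoothForms (g : Forms I M) : Prop :=
  ∀ p, ContDiffAt ℝ ∞ (inChart I g p) (extChartAt I p p)

variable (M)

/-- A smooth Riemannian metric on `M`. -/
structure RMetric where
  /-- the inner product on each tangent space -/
  form : Forms I M
  symm : SymmForms I form
  pos : PosForms I form
  smooth : SmoothForms I form

variable {M} {I}

/-- The inner product of the tangent vectors `v`, `w` at `q`. -/
noncomputable def RMetric.val (g : RMetric I M) (q : M) (v w : E) : ℝ := g.form q v w

variable [FiniteDimensional ℝ E]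

/-- The sum of the Ricci curvatures over every orthonormal `k`-frame is positive
(`k`-positive Ricci curvature). -/
def KPosRicci (k : ℕ) (g : RMetric I M) : Prop :=
  ∀ p : M, ∀ e : Fin k → E, IsOrtho (inChart I g.form p (extChartAt I p p)) e →
    0 < ∑ i, ricci (inChart I g.form p) (extChartAt I p p) (e i) (e i)

/-- Positive Ricci curvature. -/
def PosRicci (g : RMetric I M) : Prop :=
  ∀ p : M, ∀ v : E, v ≠ 0 → 0 < ricci (inChart I g.form p) (extChartAt I p p) v v

/-- Positive scalar curvature: the trace of the Ricci curvature, computed in any orthonormal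
basis, is positive. -/
def PosScalar (g : RMetric I M) : Prop := KPosRicci (Module.finrank ℝ E) g

end manifolds

section products

variable {E₁ E₂ : Type*} [NormedAddCommGroup E₁] [NormedSpace ℝ E₁]
  [NormedAddCommGroup E₂] [NormedSpace ℝ E₂]
  {H₁ H₂ : Type*} [TopologicalSpace H₁] [TopologicalSpace H₂]
  {I : ModelWithCorners ℝ E₁ H₁} {J : ModelWithCorners ℝ E₂ H₂}
  {M N : Type*} [TopologicalSpace M] [TopologicalSpace N]
  [ChartedSpace H₁ M] [ChartedSpace H₂ N]

/-- The tangent spaces of the two factors are orthogonal. -/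
def OrthSlices (g : RMetric (I.prod J) (M × N)) : Prop :=
  ∀ (x : M) (y : N) (u : E₁) (v : E₂), g.val (x, y) (u, 0) (0, v) = 0

/-- The restriction of the metric to the slice `{x} × N` does not depend on `x`. -/
def ConstSlices (g : RMetric (I.prod J) (M × N)) : Prop :=
  ∀ (x x' : M) (y : N) (v v' : E₂), g.val (x, y) (0, v) (0, v') = g.val (x', y) (0, v) (0, v')

end products

section sphere

/-- Euclidean three-space. -/
abbrev E3 := EuclideanSpace ℝ (Fin 3)

instance : Fact (Module.finrank ℝ E3 = 2 + 1) := ⟨by simp⟩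

/-- The unit sphere in Euclidean three-space. -/
abbrev S2 := Metric.sphere (0 : E3) 1

/-- The action of a linear isometry on the sphere. -/
noncomputable def sphereMap (A : E3 ≃ₗᵢ[ℝ] E3) (x : S2) : S2 := ⟨A x, by simp⟩

/-- The derivative of this action, as a map of the tangent spaces of `S²`. -/
noncomputable def sphereDeriv (A : E3 ≃ₗᵢ[ℝ] E3) (x : S2) :
    EuclideanSpace ℝ (Fin 2) →L[ℝ] EuclideanSpace ℝ (Fin 2) :=
  mfderiv (𝓡 2) (𝓡 2) (sphereMap A) x

variable (m : ℕ) (N : Type*) [TopologicalSpace N] [ChartedSpace (EuclideanSpace ℝ (Fin m)) N]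

/-- Smooth Riemannian metrics on the `m`-dimensional manifold `N`. -/
abbrev MetN := RMetric (𝓡 m) N

/-- Smooth Riemannian metrics on `S² × N`. -/
abbrev MetSN := RMetric ((𝓡 2).prod (𝓡 m)) (S2 × N)

variable {m} {N}

/-- `g` is invariant under `(x, y) ↦ (A x, y)`. -/
def InvariantUnder (g : MetSN m N) (A : E3 ≃ₗᵢ[ℝ] E3) : Prop :=
  ∀ (x : S2) (y : N) (u u' : EuclideanSpace ℝ (Fin 2)) (v v' : EuclideanSpace ℝ (Fin m)),
    g.val (sphereMap A x, y) (sphereDeriv A x u, v) (sphereDeriv A x u', v') =
      g.val (x, y) (u, v) (u', v')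

/-- `g` is invariant under the rotations of `S²`. -/
def SO3Invariant (g : MetSN m N) : Prop :=
  ∀ A : E3 ≃ₗᵢ[ℝ] E3, LinearMap.det (A.toLinearEquiv : E3 →ₗ[ℝ] E3) = 1 → InvariantUnder g A

/-- The two factors of `S² × N` are orthogonal and all slices `{x} × N` carry the same metric. -/
def OrthConst (g : MetSN m N) : Prop := OrthSlices g ∧ ConstSlices g

/-- Positive Ricci curvature on `S² × N`. -/
def PosRicciSN (g : MetSN m N) : Prop := PosRicci g

/-- The sum of the Ricci curvatures of `S² × N` over every orthonormal `m`-frame is positive. -/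
def MPosRicciSN (g : MetSN m N) : Prop := KPosRicci m g

/-- Positive scalar curvature on `N`. -/
def PosScalarN (h : MetN m N) : Prop := PosScalar h

end sphere

end Pool.Agent.Helper23.Ric
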