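import Mathlib
import Pool.Agent.Helper23.Ric.Defs

/-! Curvature of a Riemannian metric in coordinates, in coordinate-free notation on a
finite-dimensional vector space `E`. -/

set_option maxSynthPendingDepth 3
set_option linter.unusedSectionVars false
set_option linter.deprecated false

namespace Pool.Agent.Helper23.Ric

open Filter Topology
open scoped ContDiff

variable {E : Type*} [NormedAddCommGroup E] [NormedSpace ℝ E]

variable [FiniteDimensional ℝ E]

/-- `C^2`, symmetric and positive definite near `z`. -/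
structure GoodAt (G : E → E →L[ℝ] E →L[ℝ] ℝ) (z : E) : Prop where
  smooth : ContDiffAt ℝ 2 G z
  symm : ∀ᶠ y in 𝓝 z, ∀ v w, G y v w = G y w v
  pos : ∀ᶠ y in 𝓝 z, ∀ v, v ≠ 0 → 0 < G y v v

theorem GoodAt.eventually {G : E → E →L[ℝ] E →L[ℝ] ℝ} {z : E} (h : GoodAt G z) :
    ∀ᶠ y in 𝓝 z, GoodAt G y := by
  have h1 : ∀ᶠ y in 𝓝 z, ContDiffAt ℝ 2 G y := h.smooth.eventually (by simp)
  filter_upwards [h1, h.symm.eventually_nhds, h.pos.eventually_nhds] with y a b c
  exact ⟨a, b, c⟩

theorem exists_equiv {B : E →L[ℝ] E →L[ℝ] ℝ} (hB : ∀ v, v ≠ 0 → 0 < B v v) :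
    ∃ e : E ≃L[ℝ] (E →L[ℝ] ℝ), (e : E →L[ℝ] (E →L[ℝ] ℝ)) = B := by
  have hinj : Function.Injective (B : E →ₗ[ℝ] (E →L[ℝ] ℝ)) := by
    rw [← LinearMap.ker_eq_bot, LinearMap.ker_eq_bot']
    intro v hv
    by_contra h
    have h1 := hB v h
    have h2 : B v = 0 := hv
    rw [h2] at h1
    simp at h1
  have hfin : Module.finrank ℝ E = Module.finrank ℝ (E →L[ℝ] ℝ) := by
    rw [← Subspace.dual_finrank_eq (K := ℝ) (V := E)]
    exact LinearEquiv.finrank_eq (LinearMap.toContinuousLinearMap : (E →ₗ[ℝ] ℝ) ≃ₗ[ℝ] (E →L[ℝ] ℝ))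
  let e0 := LinearEquiv.ofInjectiveOfFinrankEq (B : E →ₗ[ℝ] (E →L[ℝ] ℝ)) hinj hfin
  refine ⟨e0.toContinuousLinearEquiv, ?_⟩
  ext v w
  rfl

theorem inv_apply {B : E →L[ℝ] E →L[ℝ] ℝ} (hB : ∀ v, v ≠ 0 → 0 < B v v) (l : E →L[ℝ] ℝ) :
    B (B.inverse l) = l := by
  obtain ⟨e, rfl⟩ := exists_equiv hB
  rw [ContinuousLinearMap.inverse_equiv]
  simp

theorem eq_inv {B : E →L[ℝ] E →L[ℝ] ℝ} (hB : ∀ v, v ≠ 0 → 0 < B v v) {l : E →L[ℝ] ℝ} {x : E}
    (h : ∀ u, B x u = l u) : x = B.inverse l := by
  obtain ⟨e, rfl⟩ := exists_equiv hB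
  rw [ContinuousLinearMap.inverse_equiv]
  have : (e : E →L[ℝ] (E →L[ℝ] ℝ)) x = l := by ext u; exact h u
  rw [← this]
  simp

/-- a linear functional `B x` determines `x` -/
theorem eq_of_form {B : E →L[ℝ] E →L[ℝ] ℝ} (hB : ∀ v, v ≠ 0 → 0 < B v v) {x y : E}
    (h : ∀ u, B x u = B y u) : x = y := by
  rw [eq_inv hB h, ← eq_inv hB (x := y) (l := B y) (fun u => rfl)]

section basic
variable {G : E → E →L[ℝ] E →L[ℝ] ℝ} {z : E}

theorem chris_spec (h : GoodAt G z) (v w u : E) : G z (chris G z v w) u =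
    (fderiv ℝ G z v w u + fderiv ℝ G z w v u - fderiv ℝ G z u v w) / 2 := by
  rw [chris, dform₁, dform₁, dform₂, inv_apply h.pos.self_of_nhds]
  simp only [ContinuousLinearMap.smul_apply, ContinuousLinearMap.sub_apply,
    ContinuousLinearMap.add_apply, ContinuousLinearMap.flip_apply, smul_eq_mul]
  ring

theorem chris_unique (h : GoodAt G z) {v w x : E} (hx : ∀ u, G z x u =
    (fderiv ℝ G z v w u + fderiv ℝ G z w v u - fderiv ℝ G z u v w) / 2) :
    x = chris G z v w := by
  apply eq_of_form h.pos.self_of_nhds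
  intro u
  rw [hx, chris_spec h]

theorem differentiableAt_of_good (h : GoodAt G z) : DifferentiableAt ℝ G z :=
  h.smooth.differentiableAt (by simp)

/-- derivative of `y ↦ G y a b` -/
theorem hasFDerivAt_apply2 (h : GoodAt G z) (a b : E) :
    HasFDerivAt (fun y => G y a b) (((fderiv ℝ G z).flip a).flip b) z := by
  have h1 := (differentiableAt_of_good h).hasFDerivAt
  have h2 := h1.clm_apply (hasFDerivAt_const a z)
  have h3 := h2.clm_apply (hasFDerivAt_const b z)
  refine h3.congr_fderiv ?_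
  ext u
  simp

theorem fderiv_symm (h : GoodAt G z) (u v w : E) : fderiv ℝ G z u v w = fderiv ℝ G z u w v := by
  have h1 := hasFDerivAt_apply2 h v w
  have h2 := hasFDerivAt_apply2 h w v
  have h3 : (fun y => G y v w) =ᶠ[𝓝 z] fun y => G y w v := by
    filter_upwards [h.symm] with y hy
    exact hy v w
  have h4 := h1.unique (h2.congr_of_eventuallyEq h3)
  have h5 := congrArg (fun L => L u) h4
  simpa using h5

theorem chris_symm (h : GoodAt G z) (v w : E) : chris G z v w = chris G z w v := by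
  apply chris_unique h
  intro u
  rw [chris_spec h, fderiv_symm h u v w]
  ring

theorem chris_compat (h : GoodAt G z) (u a b : E) :
    fderiv ℝ G z u a b = G z (chris G z u a) b + G z a (chris G z u b) := by
  have hs := h.symm.self_of_nhds
  rw [hs a, chris_spec h, chris_spec h, fderiv_symm h u b a, fderiv_symm h b u a,
    fderiv_symm h a u b]
  ring

theorem chris_add_left (G : E → E →L[ℝ] E →L[ℝ] ℝ) (z v v' w : E) :
    chris G z (v + v') w = chris G z v w + chris G z v' w := by
  simp only [chris, dform₁, dform₂]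
  rw [← map_add]
  congr 1
  rw [← smul_add]
  congr 1
  ext u
  simp
  ring

theorem chris_smul_left (G : E → E →L[ℝ] E →L[ℝ] ℝ) (z : E) (c : ℝ) (v w : E) :
    chris G z (c • v) w = c • chris G z v w := by
  simp only [chris, dform₁, dform₂]
  rw [← map_smul]
  congr 1
  ext u
  simp
  ring

theorem chris_add_right (G : E → E →L[ℝ] E →L[ℝ] ℝ) (z v w w' : E) :
    chris G z v (w + w') = chris G z v w + chris G z v w' := by
  simp only [chris, dform₁, dform₂]
  rw [← map_add]
  congr 1
  rw [← smul_add]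
  congr 1
  ext u
  simp
  ring

theorem chris_smul_right (G : E → E →L[ℝ] E →L[ℝ] ℝ) (z : E) (c : ℝ) (v w : E) :
    chris G z v (c • w) = c • chris G z v w := by
  simp only [chris, dform₁, dform₂]
  rw [← map_smul]
  congr 1
  ext u
  simp
  ring

/-- smoothness of the solution of `G x = l` -/
theorem contDiffAt_inverse (h : GoodAt G z) : ContDiffAt ℝ 2 (fun y => (G y).inverse) z := by
  obtain ⟨e, he⟩ := exists_equiv h.pos.self_of_nhds
  have h1 := contDiffAt_map_inverse (𝕜 := ℝ) (n := 2) e
  rw [he] at h1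
  exact h1.comp z h.smooth

theorem contDiffAt_chris (h : GoodAt G z) (v w : E) :
    ContDiffAt ℝ 1 (fun y => chris G y v w) z := by
  have hd : ContDiffAt ℝ 1 (fderiv ℝ G) z := h.smooth.fderiv_right (by norm_num)
  have h1 : ContDiffAt ℝ 1 (fun y => (1 / 2 : ℝ) •
    (fderiv ℝ G y v w + fderiv ℝ G y w v - ((fderiv ℝ G y).flip v).flip w)) z := by
    apply ContDiffAt.const_smul
    refine ContDiffAt.sub (ContDiffAt.add ?_ ?_) ?_
    · exact (hd.clm_apply contDiffAt_const).clm_apply contDiffAt_const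
    · exact (hd.clm_apply contDiffAt_const).clm_apply contDiffAt_const
    · have h2 : ContDiffAt ℝ 1 (fun y => (fderiv ℝ G y).flip) z :=
        (ContinuousLinearMap.flipₗᵢ ℝ E E (E →L[ℝ] ℝ)).contDiff.contDiffAt.comp z hd
      have h3 : ContDiffAt ℝ 1 (fun y => ((fderiv ℝ G y).flip v).flip) z :=
        (ContinuousLinearMap.flipₗᵢ ℝ E E ℝ).contDiff.contDiffAt.comp z
          (h2.clm_apply contDiffAt_const)
      exact h3.clm_apply contDiffAt_const
  exact ((contDiffAt_inverse h).of_le (by norm_num)).clm_apply h1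

theorem differentiableAt_chris (h : GoodAt G z) (v w : E) :
    DifferentiableAt ℝ (fun y => chris G y v w) z :=
  (contDiffAt_chris h v w).differentiableAt (by simp)

/-- the curvature as a linear map in its first argument -/
noncomputable def riemLin (h : GoodAt G z) (v w : E) : E →ₗ[ℝ] E where
  toFun u := riem G z u v w
  map_add' u u' := by
    simp only [riem, chris_add_left, map_add, chris_add_right]
    have : fderiv ℝ (fun y => chris G y u w + chris G y u' w) z =
        fderiv ℝ (fun y => chris G y u w) z + fderiv ℝ (fun y => chris G y u' w) z :=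
      fderiv_fun_add (differentiableAt_chris h u w) (differentiableAt_chris h u' w)
    rw [this, ContinuousLinearMap.add_apply]
    abel
  map_smul' c u := by
    simp only [riem, chris_smul_left, map_smul, chris_smul_right, RingHom.id_apply]
    have : fderiv ℝ (fun y => c • chris G y u w) z =
        c • fderiv ℝ (fun y => chris G y u w) z :=
      fderiv_fun_const_smul (differentiableAt_chris h u w) c
    rw [this, ContinuousLinearMap.smul_apply]
    simp only [smul_sub, smul_add]

theorem ricci_eq_trace (h : GoodAt G z) (v w : E) :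
    ricci G z v w = LinearMap.trace ℝ E (riemLin h v w) := by
  rw [LinearMap.trace_eq_matrix_trace ℝ (Module.finBasis ℝ E), Matrix.trace, ricci]
  refine Finset.sum_congr rfl fun i _ => ?_
  rw [Matrix.diag_apply, LinearMap.toMatrix_apply]
  rfl

end basic

end Pool.Agent.Helper23.Ric
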