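import Mathlib
import Pool.Agent.Helper23.Ric.Local

/-! Metrics on a product `V × W` for which `V ⊥ W` and the `W`-block does not depend on the point
of `V`. -/

set_option maxSynthPendingDepth 3
set_option linter.unusedSectionVars false
set_option linter.deprecated false

namespace Pool.Agent.Helper23.Ric

open Filter Topology
open scoped ContDiff

variable {V W : Type*} [NormedAddCommGroup V] [NormedSpace ℝ V] [FiniteDimensional ℝ V]
  [NormedAddCommGroup W] [NormedSpace ℝ W] [FiniteDimensional ℝ W]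

/-- the `W`-block along `{w₀} × W` -/
noncomputable def blockW (G : V × W → (V × W) →L[ℝ] (V × W) →L[ℝ] ℝ) (w₀ : V) (z : W) :
    W →L[ℝ] W →L[ℝ] ℝ :=
  (G (w₀, z)).bilinearComp (ContinuousLinearMap.inr ℝ V W) (ContinuousLinearMap.inr ℝ V W)

/-- the `V`-block along `{w₀} × W` -/
noncomputable def blockV (G : V × W → (V × W) →L[ℝ] (V × W) →L[ℝ] ℝ) (w₀ : V) (z : W) :
    V →L[ℝ] V →L[ℝ] ℝ :=
  (G (w₀, z)).bilinearComp (ContinuousLinearMap.inl ℝ V W) (ContinuousLinearMap.inl ℝ V W)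

variable {G : V × W → (V × W) →L[ℝ] (V × W) →L[ℝ] ℝ} {w₀ : V} {z₀ : W}

theorem blockW_apply (z : W) (v v' : W) : blockW G w₀ z v v' = G (w₀, z) (0, v) (0, v') := rfl

theorem blockV_apply (z : W) (v v' : V) : blockV G w₀ z v v' = G (w₀, z) (v, 0) (v', 0) := rfl

/-- The block structure near a point. -/
structure BlockAt (G : V × W → (V × W) →L[ℝ] (V × W) →L[ℝ] ℝ) (w₀ : V) (z₀ : W) : Prop where
  good : GoodAt G (w₀, z₀)
  mixed : ∀ᶠ p in 𝓝 (w₀, z₀), ∀ (u : V) (v : W), G p (u, 0) (0, v) = 0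
  const : ∀ᶠ p in 𝓝 (w₀, z₀), ∀ v v' : W, G p (0, v) (0, v') = blockW G w₀ p.2 v v'

theorem tendsto_slice (w₀ : V) (z₀ : W) : Tendsto (fun z : W => (w₀, z)) (𝓝 z₀) (𝓝 (w₀, z₀)) :=
  (continuous_const.prodMk continuous_id).tendsto _

theorem tendsto_snd' (w₀ : V) (z₀ : W) : Tendsto (fun p : V × W => p.2) (𝓝 (w₀, z₀)) (𝓝 z₀) :=
  continuous_snd.tendsto (w₀, z₀)

theorem BlockAt.eventually (h : BlockAt G w₀ z₀) : ∀ᶠ z in 𝓝 z₀, BlockAt G w₀ z := by
  have h1 := (tendsto_slice w₀ z₀).eventually h.good.eventually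
  have h2 := (tendsto_slice w₀ z₀).eventually h.mixed.eventually_nhds
  have h3 := (tendsto_slice w₀ z₀).eventually h.const.eventually_nhds
  filter_upwards [h1, h2, h3] with z a b c
  exact ⟨a, b, c⟩

theorem contDiffAt_block {n : WithTop ℕ∞} {X : Type*} [NormedAddCommGroup X] [NormedSpace ℝ X]
    (L : X →L[ℝ] V × W) (h : ContDiffAt ℝ n G (w₀, z₀)) :
    ContDiffAt ℝ n (fun z => (G (w₀, z)).bilinearComp L L) z₀ := by
  have h1 : ContDiffAt ℝ n (fun z : W => G (w₀, z)) z₀ :=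
    h.comp z₀ (contDiffAt_const.prodMk contDiffAt_id)
  have h2 : ContDiffAt ℝ n (fun z : W => (G (w₀, z)).comp L) z₀ :=
    h1.clm_comp contDiffAt_const
  have h3 : ContDiffAt ℝ n (fun z : W => ((G (w₀, z)).comp L).flip) z₀ :=
    (ContinuousLinearMap.flipₗᵢ ℝ X (V × W) ℝ).contDiff.contDiffAt.comp z₀ h2
  have h4 : ContDiffAt ℝ n (fun z : W => (((G (w₀, z)).comp L).flip).comp L) z₀ :=
    h3.clm_comp contDiffAt_const
  exact (ContinuousLinearMap.flipₗᵢ ℝ X X ℝ).contDiff.contDiffAt.comp z₀ h4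

theorem BlockAt.goodW (h : BlockAt G w₀ z₀) : GoodAt (blockW G w₀) z₀ := by
  refine ⟨contDiffAt_block _ h.good.smooth, ?_, ?_⟩
  · filter_upwards [(tendsto_slice w₀ z₀).eventually h.good.symm] with z hz v w
    exact hz _ _
  · filter_upwards [(tendsto_slice w₀ z₀).eventually h.good.pos] with z hz v hv
    exact hz _ (by simpa using hv)

theorem BlockAt.goodV (h : BlockAt G w₀ z₀) : ContDiffAt ℝ 2 (blockV G w₀) z₀ ∧
    (∀ᶠ z in 𝓝 z₀, ∀ v w, blockV G w₀ z v w = blockV G w₀ z w v) ∧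
    (∀ᶠ z in 𝓝 z₀, ∀ v, v ≠ 0 → 0 < blockV G w₀ z v v) := by
  refine ⟨contDiffAt_block _ h.good.smooth, ?_, ?_⟩
  · filter_upwards [(tendsto_slice w₀ z₀).eventually h.good.symm] with z hz v w
    exact hz _ _
  · filter_upwards [(tendsto_slice w₀ z₀).eventually h.good.pos] with z hz v hv
    exact hz _ (by simpa using hv)

/-- derivative of a function determined near the point -/
theorem fderiv_of_eventuallyEq {X : Type*} [NormedAddCommGroup X] [NormedSpace ℝ X]
    {F : X → X →L[ℝ] X →L[ℝ] ℝ} {p : X} (hF : DifferentiableAt ℝ F p) {a b : X}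
    {f : X → ℝ} {f' : X →L[ℝ] ℝ} (he : (fun q => F q a b) =ᶠ[𝓝 p] f) (hf : HasFDerivAt f f' p)
    (x : X) : fderiv ℝ F p x a b = f' x := by
  have h2 : HasFDerivAt (fun y => F y a b) (((fderiv ℝ F p).flip a).flip b) p := by
    have h3 := (hF.hasFDerivAt.clm_apply (hasFDerivAt_const a p)).clm_apply (hasFDerivAt_const b p)
    refine h3.congr_fderiv ?_
    ext u
    simp
  have h3 := h2.unique (hf.congr_of_eventuallyEq he)
  have h4 := congrArg (fun L => L x) h3
  simpa using h4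

theorem BlockAt.fderiv_mixed (h : BlockAt G w₀ z₀) (x : V × W) (u : V) (v : W) :
    fderiv ℝ G (w₀, z₀) x (u, 0) (0, v) = 0 := by
  have h1 : (fun q => G q (u, 0) (0, v)) =ᶠ[𝓝 (w₀, z₀)] fun _ => (0 : ℝ) := by
    filter_upwards [h.mixed] with q hq
    exact hq u v
  have := fderiv_of_eventuallyEq (differentiableAt_of_good h.good) h1 (hasFDerivAt_const _ _) x
  simpa using this

theorem BlockAt.fderiv_W (h : BlockAt G w₀ z₀) (x : V × W) (v v' : W) :
    fderiv ℝ G (w₀, z₀) x (0, v) (0, v') = fderiv ℝ (blockW G w₀) z₀ x.2 v v' := by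
  have h1 : (fun q => G q (0, v) (0, v')) =ᶠ[𝓝 (w₀, z₀)] fun q => blockW G w₀ q.2 v v' := by
    filter_upwards [h.const] with q hq
    exact hq v v'
  have h2 : HasFDerivAt (fun q : V × W => blockW G w₀ q.2 v v')
      ((((fderiv ℝ (blockW G w₀) z₀).flip v).flip v').comp (ContinuousLinearMap.snd ℝ V W))
      (w₀, z₀) := by
    have h3 := hasFDerivAt_apply2 h.goodW v v'
    have h4 : HasFDerivAt (fun q : V × W => q.2) (ContinuousLinearMap.snd ℝ V W) (w₀, z₀) :=
      hasFDerivAt_snd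
    exact HasFDerivAt.comp (g := fun z => blockW G w₀ z v v') (f := fun q : V × W => q.2)
      (w₀, z₀) h3 h4
  have := fderiv_of_eventuallyEq (differentiableAt_of_good h.good) h1 h2 x
  simpa using this

theorem fderiv_V {n : WithTop ℕ∞} (hG : ContDiffAt ℝ n G (w₀, z₀)) (hn : n ≠ 0) (v : W) (u u' : V) :
    fderiv ℝ G (w₀, z₀) (0, v) (u, 0) (u', 0) = fderiv ℝ (blockV G w₀) z₀ v u u' := by
  have hd : DifferentiableAt ℝ G (w₀, z₀) := hG.differentiableAt hn
  have h1 : HasFDerivAt (fun z : W => G (w₀, z)) ((fderiv ℝ G (w₀, z₀)).comp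
      (ContinuousLinearMap.inr ℝ V W)) z₀ :=
    hd.hasFDerivAt.comp z₀ (hasFDerivAt_prodMk_right w₀ z₀)
  have h2 : HasFDerivAt (fun z : W => G (w₀, z) (u, 0) (u', 0))
      (((((fderiv ℝ G (w₀, z₀)).comp (ContinuousLinearMap.inr ℝ V W)).flip (u, 0)).flip (u', 0))) z₀ := by
    have h3 := (h1.clm_apply (hasFDerivAt_const (u, 0) z₀)).clm_apply
      (hasFDerivAt_const (u', 0) z₀)
    refine h3.congr_fderiv ?_
    ext x
    simp
  have hd2 : DifferentiableAt ℝ (blockV G w₀) z₀ :=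
    (contDiffAt_block (ContinuousLinearMap.inl ℝ V W) hG).differentiableAt hn
  have h4 : HasFDerivAt (fun z : W => blockV G w₀ z u u')
      (((fderiv ℝ (blockV G w₀) z₀).flip u).flip u') z₀ := by
    have h3 := (hd2.hasFDerivAt.clm_apply (hasFDerivAt_const u z₀)).clm_apply
      (hasFDerivAt_const u' z₀)
    refine h3.congr_fderiv ?_
    ext x
    simp
  have h5 := congrArg (fun L => L v) (h2.unique h4)
  simpa using h5

/-- `½ Λ⁻¹ ∂_v Λ` -/
noncomputable def ell (G : V × W → (V × W) →L[ℝ] (V × W) →L[ℝ] ℝ) (w₀ : V) (z : W) (v : W) :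
    V →L[ℝ] V :=
  ((blockV G w₀ z).inverse).comp ((1 / 2 : ℝ) • fderiv ℝ (blockV G w₀) z v)

theorem BlockAt.ell_spec (h : BlockAt G w₀ z₀) (v : W) (u u' : V) :
    blockV G w₀ z₀ (ell G w₀ z₀ v u) u' = fderiv ℝ (blockV G w₀) z₀ v u u' / 2 := by
  rw [ell, ContinuousLinearMap.comp_apply, inv_apply h.goodV.2.2.self_of_nhds]
  simp
  ring

theorem split (x : V × W) : x = (x.1, 0) + (0, x.2) := by simp

theorem BlockAt.apply (h : BlockAt G w₀ z₀) (a b : V × W) :
    G (w₀, z₀) a b = blockV G w₀ z₀ a.1 b.1 + blockW G w₀ z₀ a.2 b.2 := by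
  have hm := h.mixed.self_of_nhds
  have hs := h.good.symm.self_of_nhds
  conv_lhs => rw [split a, split b]
  simp only [map_add, ContinuousLinearMap.add_apply, hm, hs (0, a.2) (b.1, 0)]
  rw [blockV_apply, blockW_apply]
  ring

/-- the `(0,v),(0,v')` Christoffel symbols are those of the `W`-block -/
theorem BlockAt.chris_WW (h : BlockAt G w₀ z₀) (v v' : W) :
    chris G (w₀, z₀) (0, v) (0, v') = (0, chris (blockW G w₀) z₀ v v') := by
  symm
  apply chris_unique h.good
  intro x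
  rw [h.apply]
  have e1 : fderiv ℝ G (w₀, z₀) (0, v) (0, v') x = fderiv ℝ (blockW G w₀) z₀ v v' x.2 := by
    conv_lhs => rw [split x]
    rw [map_add, fderiv_symm h.good, h.fderiv_mixed, h.fderiv_W, zero_add]
  have e2 : fderiv ℝ G (w₀, z₀) (0, v') (0, v) x = fderiv ℝ (blockW G w₀) z₀ v' v x.2 := by
    conv_lhs => rw [split x]
    rw [map_add, fderiv_symm h.good, h.fderiv_mixed, h.fderiv_W, zero_add]
  rw [e1, e2, h.fderiv_W]
  simp only [map_zero, ContinuousLinearMap.zero_apply, zero_add]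
  exact chris_spec h.goodW v v' x.2

/-- the `(u,0),(0,v)` Christoffel symbols -/
theorem BlockAt.chris_VW (h : BlockAt G w₀ z₀) (u : V) (v : W) :
    chris G (w₀, z₀) (u, 0) (0, v) = (ell G w₀ z₀ v u, 0) := by
  symm
  apply chris_unique h.good
  intro x
  rw [h.apply]
  have e1 : fderiv ℝ G (w₀, z₀) (u, 0) (0, v) x = 0 := by
    conv_lhs => rw [split x]
    rw [map_add, fderiv_symm h.good, h.fderiv_mixed, h.fderiv_W, zero_add]
    simp
  have e2 : fderiv ℝ G (w₀, z₀) (0, v) (u, 0) x = fderiv ℝ (blockV G w₀) z₀ v u x.1 := by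
    conv_lhs => rw [split x]
    rw [map_add, h.fderiv_mixed, fderiv_V h.good.smooth (by norm_num), add_zero]
  rw [e1, e2, h.fderiv_mixed]
  simp only [map_zero, ContinuousLinearMap.zero_apply, add_zero, h.ell_spec]
  ring

/-- near a point with block structure, all points have block structure, with the `W`-block being
the same function -/
theorem BlockAt.chris_WW_eventually (h : BlockAt G w₀ z₀) (v v' : W) :
    (fun p => chris G p (0, v) (0, v')) =ᶠ[𝓝 (w₀, z₀)]
      fun p => ((0 : V), chris (blockW G w₀) p.2 v v') := by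
  have h1 := h.good.eventually
  have h2 := h.mixed.eventually_nhds
  have h3 := h.const.eventually_nhds
  have h4 : ∀ᶠ p in 𝓝 (w₀, z₀), GoodAt (blockW G w₀) p.2 :=
    (tendsto_snd' w₀ z₀).eventually h.goodW.eventually
  filter_upwards [h1, h2, h3, h4] with p a b c d
  obtain ⟨w, z⟩ := p
  -- the block of `G` at `w` agrees with the one at `w₀` near `z`
  have e : blockW G w =ᶠ[𝓝 z] blockW G w₀ := by
    have := (tendsto_slice w z).eventually c
    filter_upwards [this] with y hy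
    ext v v'
    exact hy v v'
  have hb : BlockAt G w z := by
    refine ⟨a, b, ?_⟩
    have e' := (tendsto_snd' w z).eventually e
    filter_upwards [c, e'] with q hq hq' v v'
    rw [hq, hq']
  rw [hb.chris_WW]
  simp only [chris, dform₁, dform₂, e.fderiv_eq, e.self_of_nhds]

/-- derivative of `(0,v),(0,v')` Christoffel symbols -/
theorem BlockAt.fderiv_chris_WW (h : BlockAt G w₀ z₀) (v v' : W) (x : V × W) :
    fderiv ℝ (fun p => chris G p (0, v) (0, v')) (w₀, z₀) x =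
      (0, fderiv ℝ (fun z => chris (blockW G w₀) z v v') z₀ x.2) := by
  rw [(h.chris_WW_eventually v v').fderiv_eq]
  have h1 : HasFDerivAt (fun z => chris (blockW G w₀) z v v')
      (fderiv ℝ (fun z => chris (blockW G w₀) z v v') z₀) z₀ :=
    (differentiableAt_chris h.goodW v v').hasFDerivAt
  have h2 : HasFDerivAt (fun q : V × W => q.2) (ContinuousLinearMap.snd ℝ V W) (w₀, z₀) :=
    hasFDerivAt_snd
  have h3 := HasFDerivAt.comp (g := fun z => chris (blockW G w₀) z v v')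
    (f := fun q : V × W => q.2) (w₀, z₀) h1 h2
  have h4 := (hasFDerivAt_const (0 : V) ((w₀, z₀) : V × W)).prodMk h3
  have h5 : fderiv ℝ (fun p : V × W => ((0 : V), chris (blockW G w₀) p.2 v v')) (w₀, z₀) = _ :=
    h4.fderiv
  rw [h5]
  simp

theorem BlockAt.differentiableAt_ell (h : BlockAt G w₀ z₀) (v : W) :
    DifferentiableAt ℝ (fun z => ell G w₀ z v) z₀ := by
  have hd : ContDiffAt ℝ 1 (fderiv ℝ (blockV G w₀)) z₀ := h.goodV.1.fderiv_right (by norm_num)
  have h1 : ContDiffAt ℝ 1 (fun z => (1 / 2 : ℝ) • fderiv ℝ (blockV G w₀) z v) z₀ :=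
    (hd.clm_apply contDiffAt_const).const_smul _
  have h2 : ContDiffAt ℝ 1 (fun z => (blockV G w₀ z).inverse) z₀ := by
    obtain ⟨e, he⟩ := exists_equiv h.goodV.2.2.self_of_nhds
    have h1 := contDiffAt_map_inverse (𝕜 := ℝ) (n := 1) e
    rw [he] at h1
    exact h1.comp z₀ (h.goodV.1.of_le (by norm_num))
  exact (h2.clm_comp h1).differentiableAt (by simp)

/-- derivative in the direction `W` of the `(u,0),(0,v)` Christoffel symbols -/
theorem BlockAt.fderiv_chris_VW (h : BlockAt G w₀ z₀) (u : V) (v y : W) :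
    fderiv ℝ (fun p => chris G p (u, 0) (0, v)) (w₀, z₀) (0, y) =
      (fderiv ℝ (fun z => ell G w₀ z v) z₀ y u, 0) := by
  have h1 := (differentiableAt_chris h.good (u, 0) (0, v)).hasFDerivAt
  have h2 : HasFDerivAt (fun z : W => chris G (w₀, z) (u, 0) (0, v))
      ((fderiv ℝ (fun p => chris G p (u, 0) (0, v)) (w₀, z₀)).comp
      (ContinuousLinearMap.inr ℝ V W)) z₀ :=
    h1.comp z₀ (hasFDerivAt_prodMk_right w₀ z₀)
  have h3 : (fun z : W => chris G (w₀, z) (u, 0) (0, v)) =ᶠ[𝓝 z₀]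
      fun z => (ell G w₀ z v u, 0) := by
    filter_upwards [h.eventually] with z hz
    exact hz.chris_VW u v
  have h4 : HasFDerivAt (fun z : W => ell G w₀ z v u)
      ((fderiv ℝ (fun z => ell G w₀ z v) z₀).flip u) z₀ := by
    have := (h.differentiableAt_ell v).hasFDerivAt.clm_apply (hasFDerivAt_const u z₀)
    refine this.congr_fderiv ?_
    ext x
    simp
  have h5 := (h4.prodMk (hasFDerivAt_const (0 : W) z₀)).congr_of_eventuallyEq h3
  have h6 := congrArg (fun L => L y) (h2.unique h5)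
  simpa using h6

theorem BlockAt.riem_WW (h : BlockAt G w₀ z₀) (y v v' : W) :
    riem G (w₀, z₀) (0, y) (0, v) (0, v') = (0, riem (blockW G w₀) z₀ y v v') := by
  simp only [riem, h.fderiv_chris_WW, h.chris_WW, Prod.mk_add_mk, Prod.mk_sub_mk, sub_zero,
    add_zero]

theorem BlockAt.riem_VW (h : BlockAt G w₀ z₀) (u : V) (v : W) :
    riem G (w₀, z₀) (u, 0) (0, v) (0, v) =
      (- fderiv ℝ (fun z => ell G w₀ z v) z₀ v u + ell G w₀ z₀ (chris (blockW G w₀) z₀ v v) u
        - ell G w₀ z₀ v (ell G w₀ z₀ v u), 0) := by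
  have e0 : chris G (w₀, z₀) (0, v) (ell G w₀ z₀ v u, 0) = (ell G w₀ z₀ v (ell G w₀ z₀ v u), 0) := by
    rw [chris_symm h.good, h.chris_VW]
  simp only [riem, h.fderiv_chris_WW, h.chris_WW, h.fderiv_chris_VW, h.chris_VW, e0,
    Prod.mk_add_mk, Prod.mk_sub_mk, map_zero, sub_zero, add_zero, zero_sub]

/-- the map `u ↦ R(u,v)v` on `V` -/
noncomputable def aLin (G : V × W → (V × W) →L[ℝ] (V × W) →L[ℝ] ℝ) (w₀ : V) (z₀ v : W) :
    V →ₗ[ℝ] V :=
  ((- fderiv ℝ (fun z => ell G w₀ z v) z₀ v + ell G w₀ z₀ (chris (blockW G w₀) z₀ v v)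
        - (ell G w₀ z₀ v).comp (ell G w₀ z₀ v) : V →L[ℝ] V) : V →ₗ[ℝ] V)

theorem BlockAt.ricci_eq (h : BlockAt G w₀ z₀) (v : W) :
    ricci G (w₀, z₀) (0, v) (0, v) =
      LinearMap.trace ℝ V (aLin G w₀ z₀ v) + ricci (blockW G w₀) z₀ v v := by
  rw [ricci_eq_trace h.good, ricci_eq_trace h.goodW, ← LinearMap.trace_prodMap']
  congr 1
  apply LinearMap.ext
  intro x
  conv_lhs => rw [split x]
  rw [map_add]
  change riem G (w₀, z₀) (x.1, 0) (0, v) (0, v) + riem G (w₀, z₀) (0, x.2) (0, v) (0, v) = _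
  rw [h.riem_VW, h.riem_WW]
  simp only [LinearMap.prodMap_apply, Prod.mk_add_mk, add_zero, zero_add]
  rfl

end Pool.Agent.Helper23.Ric
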