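import Mathlib
import Pool.Agent.Helper23.Ric.Local

/-! Ricci curvature of a conformal metric `exp (2 φ) G`. -/

set_option maxSynthPendingDepth 3
set_option linter.unusedSectionVars false
set_option linter.deprecated false

namespace Pool.Agent.Helper23.Ric

open Filter Topology
open scoped ContDiff

variable {E : Type*} [NormedAddCommGroup E] [NormedSpace ℝ E] [FiniteDimensional ℝ E]
variable {G : E → E →L[ℝ] E →L[ℝ] ℝ} {φ : E → ℝ} {z : E}

/-- the conformal metric -/
noncomputable def conf (φ : E → ℝ) (G : E → E →L[ℝ] E →L[ℝ] ℝ) (y : E) : E →L[ℝ] E →L[ℝ] ℝ :=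
  Real.exp (2 * φ y) • G y

/-- the gradient of `φ` -/
noncomputable def grad (φ : E → ℝ) (G : E → E →L[ℝ] E →L[ℝ] ℝ) (y : E) : E :=
  (G y).inverse (fderiv ℝ φ y)

/-- the Hessian of `φ` -/
noncomputable def hess (φ : E → ℝ) (G : E → E →L[ℝ] E →L[ℝ] ℝ) (y u v : E) : ℝ :=
  fderiv ℝ (fderiv ℝ φ) y u v - fderiv ℝ φ y (chris G y u v)

theorem conf_good (h : GoodAt G z) (hφ : ContDiffAt ℝ 2 φ z) : GoodAt (conf φ G) z := by
  refine ⟨?_, ?_, ?_⟩
  · exact (contDiffAt_const.mul hφ).exp.smul h.smooth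
  · filter_upwards [h.symm] with y hy v w
    simp only [conf, ContinuousLinearMap.smul_apply, hy v w]
  · filter_upwards [h.pos] with y hy v hv
    simp only [conf, ContinuousLinearMap.smul_apply, smul_eq_mul]
    exact mul_pos (Real.exp_pos _) (hy v hv)

theorem grad_spec (h : GoodAt G z) (u : E) : G z (grad φ G z) u = fderiv ℝ φ z u := by
  rw [grad, inv_apply h.pos.self_of_nhds]

theorem fderiv_conf (h : GoodAt G z) (hφ : DifferentiableAt ℝ φ z) (u v w : E) :
    fderiv ℝ (conf φ G) z u v w =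
      Real.exp (2 * φ z) * (2 * fderiv ℝ φ z u * G z v w + fderiv ℝ G z u v w) := by
  have h1 : HasFDerivAt (fun y => Real.exp (2 * φ y)) (Real.exp (2 * φ z) • ((2 : ℝ) • fderiv ℝ φ z)) z :=
    (hφ.hasFDerivAt.const_mul 2).exp
  have h2 := h1.smul (differentiableAt_of_good h).hasFDerivAt
  have h3 : fderiv ℝ (conf φ G) z = _ := h2.fderiv
  rw [h3]
  simp only [ContinuousLinearMap.add_apply, ContinuousLinearMap.smul_apply,
    ContinuousLinearMap.smulRight_apply, smul_eq_mul]
  ring

theorem chris_conf (h : GoodAt G z) (hφ : ContDiffAt ℝ 2 φ z) (v w : E) :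
    chris (conf φ G) z v w = chris G z v w + fderiv ℝ φ z v • w + fderiv ℝ φ z w • v
      - G z v w • grad φ G z := by
  symm
  apply chris_unique (conf_good h hφ)
  intro u
  have hd : DifferentiableAt ℝ φ z := hφ.differentiableAt (by simp)
  rw [fderiv_conf h hd, fderiv_conf h hd, fderiv_conf h hd]
  simp only [conf, ContinuousLinearMap.smul_apply, map_add, map_sub, map_smul,
    ContinuousLinearMap.add_apply, ContinuousLinearMap.sub_apply, smul_eq_mul]
  rw [grad_spec h, chris_spec h, h.symm.self_of_nhds v w]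
  ring

theorem contDiffAt_grad (h : GoodAt G z) (hφ : ContDiffAt ℝ 2 φ z) :
    ContDiffAt ℝ 1 (grad φ G) z :=
  ((contDiffAt_inverse h).of_le (by norm_num)).clm_apply (hφ.fderiv_right (by norm_num))

theorem differentiableAt_grad (h : GoodAt G z) (hφ : ContDiffAt ℝ 2 φ z) :
    DifferentiableAt ℝ (grad φ G) z := (contDiffAt_grad h hφ).differentiableAt (by simp)

theorem differentiableAt_fderiv (hφ : ContDiffAt ℝ 2 φ z) :
    DifferentiableAt ℝ (fderiv ℝ φ) z :=
  (hφ.fderiv_right (m := 1) (by norm_num)).differentiableAt (by simp)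

/-- covariant derivative of the gradient -/
noncomputable def dgrad (φ : E → ℝ) (G : E → E →L[ℝ] E →L[ℝ] ℝ) (y : E) : E →ₗ[ℝ] E where
  toFun u := fderiv ℝ (grad φ G) y u + chris G y u (grad φ G y)
  map_add' u v := by rw [map_add, chris_add_left]; abel
  map_smul' c u := by rw [map_smul, chris_smul_left, RingHom.id_apply, smul_add]

theorem dgrad_apply (y u : E) : dgrad φ G y u =
    fderiv ℝ (grad φ G) y u + chris G y u (grad φ G y) := rfl

theorem hess_symm (h : GoodAt G z) (hφ : ContDiffAt ℝ 2 φ z) (u v : E) :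
    hess φ G z u v = hess φ G z v u := by
  have h1 : IsSymmSndFDerivAt ℝ φ z := hφ.isSymmSndFDerivAt (by simp)
  rw [hess, hess, chris_symm h u v, h1 u v]

/-- `⟨∇_u ∇φ, v⟩ = Hess φ (u, v)` -/
theorem dgrad_spec (h : GoodAt G z) (hφ : ContDiffAt ℝ 2 φ z) (u v : E) :
    G z (dgrad φ G z u) v = hess φ G z u v := by
  have h1 : ∀ᶠ y in 𝓝 z, G y (grad φ G y) v = fderiv ℝ φ y v := by
    filter_upwards [h.eventually] with y hy
    exact grad_spec hy v
  have h2 : HasFDerivAt (fun y => G y (grad φ G y) v)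
      (((fderiv ℝ G z).flip (grad φ G z)).flip v + (((G z).flip v).comp (fderiv ℝ (grad φ G) z))) z := by
    have h3 := ((differentiableAt_of_good h).hasFDerivAt.clm_apply
      (differentiableAt_grad h hφ).hasFDerivAt).clm_apply (hasFDerivAt_const v z)
    refine h3.congr_fderiv ?_
    ext u
    simp
    ring
  have h4 : HasFDerivAt (fun y => fderiv ℝ φ y v) ((fderiv ℝ (fderiv ℝ φ) z).flip v) z := by
    have h5 := (differentiableAt_fderiv hφ).hasFDerivAt.clm_apply (hasFDerivAt_const v z)
    refine h5.congr_fderiv ?_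
    ext u
    simp
  have h6 := (h4.congr_of_eventuallyEq h1).unique h2
  have h7 := congrArg (fun L => L u) h6
  simp only [ContinuousLinearMap.add_apply, ContinuousLinearMap.flip_apply,
    ContinuousLinearMap.comp_apply] at h7
  rw [hess, h7, chris_compat h, dgrad_apply, map_add, ContinuousLinearMap.add_apply,
    grad_spec h, ← grad_spec h]
  ring

theorem eventually_contDiff2 (hφ : ContDiffAt ℝ 2 φ z) : ∀ᶠ y in 𝓝 z, ContDiffAt ℝ 2 φ y :=
  hφ.eventually (by simp)

theorem fderiv_chris_conf (h : GoodAt G z) (hφ : ContDiffAt ℝ 2 φ z) (u v w : E) :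
    fderiv ℝ (fun y => chris (conf φ G) y v w) z u =
      fderiv ℝ (fun y => chris G y v w) z u + (fderiv ℝ (fderiv ℝ φ) z u v) • w
        + (fderiv ℝ (fderiv ℝ φ) z u w) • v - (fderiv ℝ G z u v w) • grad φ G z
        - (G z v w) • fderiv ℝ (grad φ G) z u := by
  have h1 : (fun y => chris (conf φ G) y v w) =ᶠ[𝓝 z] fun y =>
      chris G y v w + fderiv ℝ φ y v • w + fderiv ℝ φ y w • v - G y v w • grad φ G y := by
    filter_upwards [h.eventually, eventually_contDiff2 hφ] with y hy hy'
    exact chris_conf hy hy' v w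
  have hA := (differentiableAt_chris h v w).hasFDerivAt
  have hp := (differentiableAt_fderiv hφ).hasFDerivAt
  have hB := (hp.clm_apply (hasFDerivAt_const v z)).smul (hasFDerivAt_const w z)
  have hC := (hp.clm_apply (hasFDerivAt_const w z)).smul (hasFDerivAt_const v z)
  have hD := (hasFDerivAt_apply2 h v w).smul (differentiableAt_grad h hφ).hasFDerivAt
  have h2 := ((hA.add hB).add hC).sub hD
  have h3 := (h2.congr_of_eventuallyEq h1).fderiv
  rw [h3]
  simp only [ContinuousLinearMap.sub_apply, ContinuousLinearMap.add_apply,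
    ContinuousLinearMap.smul_apply, ContinuousLinearMap.smulRight_apply,
    ContinuousLinearMap.flip_apply, ContinuousLinearMap.comp_apply,
    ContinuousLinearMap.zero_apply, smul_zero, zero_add, map_zero]
  module

theorem riem_conf (h : GoodAt G z) (hφ : ContDiffAt ℝ 2 φ z) (u v : E) :
    riem (conf φ G) z u v v = riem G z u v v + hess φ G z u v • v - hess φ G z v v • u
      - (G z v v) • dgrad φ G z u + (G z u v) • dgrad φ G z v
      - (fderiv ℝ φ z v * fderiv ℝ φ z u) • v
      + (fderiv ℝ φ z v ^ 2 - G z v v * fderiv ℝ φ z (grad φ G z)) • u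
      - (fderiv ℝ φ z v * G z u v) • grad φ G z
      + (fderiv ℝ φ z (grad φ G z) * G z u v) • v
      + (G z v v * fderiv ℝ φ z u) • grad φ G z := by
  have hs := h.symm.self_of_nhds
  have hQ : fderiv ℝ (fderiv ℝ φ) z v u = fderiv ℝ (fderiv ℝ φ) z u v := by
    have h1 : IsSymmSndFDerivAt ℝ φ z := hφ.isSymmSndFDerivAt (by simp)
    exact h1 v u
  have hG1 : fderiv ℝ G z u v v = 2 * G z (chris G z u v) v := by
    rw [chris_compat h, hs v]; ring
  have hG2 : fderiv ℝ G z v u v = G z (chris G z u v) v + G z (chris G z v v) u := by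
    rw [chris_compat h, chris_symm h v u, hs u]
  have hgr : ∀ x, G z x (grad φ G z) = fderiv ℝ φ z x := fun x => by
    rw [hs, grad_spec h]
  rw [riem, riem, fderiv_chris_conf h hφ, fderiv_chris_conf h hφ, hQ, hG1, hG2]
  simp only [chris_conf h hφ, hess, dgrad_apply, chris_add_right, chris_smul_right, sub_eq_add_neg,
    ← neg_smul, map_add, map_smul, ContinuousLinearMap.add_apply, ContinuousLinearMap.smul_apply,
    smul_eq_mul, hgr, chris_symm h v u, hs v u, hs u (chris G z v v), hs v (chris G z u v),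
    hs v (chris G z v v), grad_spec h]
  module

/-- `u ↦ Hess φ (u, v)` -/
noncomputable def hessLin (φ : E → ℝ) (G : E → E →L[ℝ] E →L[ℝ] ℝ) (z v : E) : E →ₗ[ℝ] ℝ where
  toFun u := hess φ G z u v
  map_add' u u' := by
    simp only [hess, chris_add_left, map_add, ContinuousLinearMap.add_apply]; ring
  map_smul' c u := by
    simp only [hess, chris_smul_left, map_smul, ContinuousLinearMap.smul_apply, smul_eq_mul,
      RingHom.id_apply]; ring

/-- `u ↦ G (u, v)` -/
noncomputable def gLin (G : E → E →L[ℝ] E →L[ℝ] ℝ) (z v : E) : E →ₗ[ℝ] ℝ := ((G z).flip v : E →L[ℝ] ℝ)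

theorem ricci_conf (h : GoodAt G z) (hφ : ContDiffAt ℝ 2 φ z) (v : E) :
    ricci (conf φ G) z v v = ricci G z v v
      - (Module.finrank ℝ E - 2 : ℝ) * (hess φ G z v v - fderiv ℝ φ z v ^ 2)
      - (LinearMap.trace ℝ E (dgrad φ G z)
        + (Module.finrank ℝ E - 2 : ℝ) * fderiv ℝ φ z (grad φ G z)) * G z v v := by
  rw [ricci_eq_trace (conf_good h hφ), ricci_eq_trace h]
  have key : riemLin (conf_good h hφ) v v = riemLin h v v + (hessLin φ G z v).smulRight v
      - hess φ G z v v • LinearMap.id - (G z v v) • dgrad φ G z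
      + (gLin G z v).smulRight (dgrad φ G z v)
      - (fderiv ℝ φ z v • (fderiv ℝ φ z : E →ₗ[ℝ] ℝ)).smulRight v
      + (fderiv ℝ φ z v ^ 2 - G z v v * fderiv ℝ φ z (grad φ G z)) • LinearMap.id
      - (fderiv ℝ φ z v • gLin G z v).smulRight (grad φ G z)
      + (fderiv ℝ φ z (grad φ G z) • gLin G z v).smulRight v
      + (G z v v • (fderiv ℝ φ z : E →ₗ[ℝ] ℝ)).smulRight (grad φ G z) := by
    ext u
    exact riem_conf h hφ u v
  rw [key]
  simp only [map_add, map_sub, map_smul, LinearMap.trace_smulRight, LinearMap.trace_id,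
    LinearMap.smul_apply, smul_eq_mul]
  have e1 : hessLin φ G z v v = hess φ G z v v := rfl
  have e2 : gLin G z v (dgrad φ G z v) = hess φ G z v v := dgrad_spec h hφ v v
  have e3 : gLin G z v (grad φ G z) = fderiv ℝ φ z v := grad_spec h v
  have e4 : gLin G z v v = G z v v := rfl
  rw [e1, e2, e3, e4]
  simp only [ContinuousLinearMap.coe_coe]
  ring

end Pool.Agent.Helper23.Ric
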