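import Mathlib
import Pool.Agent.Helper23.Ric.Block
import Pool.Agent.Helper23.Ric.Conf

/-! The case of a two-dimensional first factor. -/

set_option maxSynthPendingDepth 3
set_option linter.unusedSectionVars false
set_option linter.deprecated false

namespace Pool.Agent.Helper23.Ric

open Filter Topology
open scoped ContDiff

variable {V W : Type*} [NormedAddCommGroup V] [NormedSpace ℝ V] [FiniteDimensional ℝ V]
  [NormedAddCommGroup W] [NormedSpace ℝ W] [FiniteDimensional ℝ W]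

variable {G : V × W → (V × W) →L[ℝ] (V × W) →L[ℝ] ℝ} {w₀ : V} {z₀ : W}

/-- determinant of the `V`-block in the basis `b` -/
noncomputable def det2 (b : Module.Basis (Fin 2) ℝ V) (B : V →L[ℝ] V →L[ℝ] ℝ) : ℝ :=
  B (b 0) (b 0) * B (b 1) (b 1) - B (b 0) (b 1) ^ 2

theorem det2_pos (b : Module.Basis (Fin 2) ℝ V) {B : V →L[ℝ] V →L[ℝ] ℝ}
    (hs : ∀ v w, B v w = B w v) (hp : ∀ v, v ≠ 0 → 0 < B v v) : 0 < det2 b B := by
  have hc : 0 < B (b 1) (b 1) := hp _ (b.ne_zero 1)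
  set x := B (b 1) (b 1) • b 0 - B (b 0) (b 1) • b 1 with hx
  have hx0 : x ≠ 0 := by
    intro h0
    have h1 : b.coord 0 x = 0 := by rw [h0, map_zero]
    rw [hx] at h1
    simp at h1
    exact hc.ne' h1
  have h2 := hp x hx0
  have h3 : B x x = B (b 1) (b 1) * det2 b B := by
    rw [hx, det2]
    simp only [map_sub, map_smul, ContinuousLinearMap.sub_apply, ContinuousLinearMap.smul_apply,
      smul_eq_mul, hs (b 1) (b 0)]
    ring
  rw [h3] at h2
  exact (pos_iff_pos_of_mul_pos h2).1 hc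

theorem trace2 (b : Module.Basis (Fin 2) ℝ V) (L : V →ₗ[ℝ] V) :
    LinearMap.trace ℝ V L = b.coord 0 (L (b 0)) + b.coord 1 (L (b 1)) := by
  rw [LinearMap.trace_eq_matrix_trace ℝ b, Matrix.trace, Fin.sum_univ_two]
  simp [LinearMap.toMatrix_apply]

theorem expand2 (b : Module.Basis (Fin 2) ℝ V) (x : V) :
    x = b.coord 0 x • b 0 + b.coord 1 x • b 1 := by
  have := b.sum_repr x
  rw [Fin.sum_univ_two] at this
  exact this.symm

/-- the function `σ = ½ log det Λ` -/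
noncomputable def sig (b : Module.Basis (Fin 2) ℝ V)
    (G : V × W → (V × W) →L[ℝ] (V × W) →L[ℝ] ℝ) (w₀ : V) (z : W) : ℝ :=
  (1 / 2) * Real.log (det2 b (blockV G w₀ z))

theorem hasFDerivAt_blockV (h : BlockAt G w₀ z₀) (u u' : V) :
    HasFDerivAt (fun z => blockV G w₀ z u u')
      (((fderiv ℝ (blockV G w₀) z₀).flip u).flip u') z₀ := by
  have hd2 : DifferentiableAt ℝ (blockV G w₀) z₀ := h.goodV.1.differentiableAt (by norm_num)
  have h3 := (hd2.hasFDerivAt.clm_apply (hasFDerivAt_const u z₀)).clm_apply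
    (hasFDerivAt_const u' z₀)
  refine h3.congr_fderiv ?_
  ext x
  simp

theorem contDiffAt_det2 (b : Module.Basis (Fin 2) ℝ V) {n : WithTop ℕ∞}
    (h : ContDiffAt ℝ n (blockV G w₀) z₀) :
    ContDiffAt ℝ n (fun z => det2 b (blockV G w₀ z)) z₀ := by
  have h1 : ∀ u u' : V, ContDiffAt ℝ n (fun z => blockV G w₀ z u u') z₀ := fun u u' =>
    (h.clm_apply contDiffAt_const).clm_apply contDiffAt_const
  exact ((h1 _ _).mul (h1 _ _)).sub ((h1 _ _).pow 2)

theorem contDiffAt_sig (b : Module.Basis (Fin 2) ℝ V) {n : WithTop ℕ∞}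
    (h : BlockAt G w₀ z₀) (hn : ContDiffAt ℝ n (blockV G w₀) z₀) :
    ContDiffAt ℝ n (sig b G w₀) z₀ := by
  have hpos : 0 < det2 b (blockV G w₀ z₀) :=
    det2_pos b h.goodV.2.1.self_of_nhds h.goodV.2.2.self_of_nhds
  exact contDiffAt_const.mul ((contDiffAt_det2 b hn).log hpos.ne')

theorem fderiv_sig (b : Module.Basis (Fin 2) ℝ V) (h : BlockAt G w₀ z₀) (v : W) :
    2 * det2 b (blockV G w₀ z₀) * fderiv ℝ (sig b G w₀) z₀ v =
      fderiv ℝ (blockV G w₀) z₀ v (b 0) (b 0) * blockV G w₀ z₀ (b 1) (b 1)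
      + blockV G w₀ z₀ (b 0) (b 0) * fderiv ℝ (blockV G w₀) z₀ v (b 1) (b 1)
      - 2 * blockV G w₀ z₀ (b 0) (b 1) * fderiv ℝ (blockV G w₀) z₀ v (b 0) (b 1) := by
  have hpos : 0 < det2 b (blockV G w₀ z₀) :=
    det2_pos b h.goodV.2.1.self_of_nhds h.goodV.2.2.self_of_nhds
  have h1 := ((hasFDerivAt_blockV h (b 0) (b 0)).mul (hasFDerivAt_blockV h (b 1) (b 1))).sub
    ((hasFDerivAt_blockV h (b 0) (b 1)).pow 2)
  have h2 := (h1.log hpos.ne').const_mul (1 / 2 : ℝ)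
  have h3 : fderiv ℝ (sig b G w₀) z₀ = _ := h2.fderiv
  rw [h3]
  simp only [ContinuousLinearMap.smul_apply, ContinuousLinearMap.sub_apply,
    ContinuousLinearMap.add_apply, ContinuousLinearMap.flip_apply, smul_eq_mul]
  change 2 * det2 b (blockV G w₀ z₀) * ((1 / 2 : ℝ) * ((det2 b (blockV G w₀ z₀))⁻¹ * _)) = _
  field_simp
  simp
  ring

/-- coordinates of `ell` -/
theorem ell_eqs (b : Module.Basis (Fin 2) ℝ V) (h : BlockAt G w₀ z₀) (v : W) (i j : Fin 2) :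
    b.coord 0 (ell G w₀ z₀ v (b i)) * blockV G w₀ z₀ (b 0) (b j)
      + b.coord 1 (ell G w₀ z₀ v (b i)) * blockV G w₀ z₀ (b 1) (b j) =
      fderiv ℝ (blockV G w₀) z₀ v (b i) (b j) / 2 := by
  rw [← h.ell_spec]
  conv_rhs => rw [expand2 b (ell G w₀ z₀ v (b i))]
  simp only [map_add, map_smul, ContinuousLinearMap.add_apply, ContinuousLinearMap.smul_apply,
    smul_eq_mul]

theorem fderiv_blockV_symm (h : BlockAt G w₀ z₀) (v : W) (u u' : V) :
    fderiv ℝ (blockV G w₀) z₀ v u u' = fderiv ℝ (blockV G w₀) z₀ v u' u := by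
  rw [← fderiv_V h.good.smooth (by norm_num), ← fderiv_V h.good.smooth (by norm_num),
    fderiv_symm h.good]

theorem trace_ell (b : Module.Basis (Fin 2) ℝ V) (h : BlockAt G w₀ z₀) (v : W) :
    LinearMap.trace ℝ V (ell G w₀ z₀ v : V →ₗ[ℝ] V) = fderiv ℝ (sig b G w₀) z₀ v := by
  have hpos : 0 < det2 b (blockV G w₀ z₀) :=
    det2_pos b h.goodV.2.1.self_of_nhds h.goodV.2.2.self_of_nhds
  have hs := h.goodV.2.1.self_of_nhds (b 1) (b 0)
  have e00 := ell_eqs b h v 0 0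
  have e01 := ell_eqs b h v 0 1
  have e10 := ell_eqs b h v 1 0
  have e11 := ell_eqs b h v 1 1
  have e := fderiv_sig b h v
  have hsd := fderiv_blockV_symm h v (b 1) (b 0)
  rw [trace2 b]
  simp only [ContinuousLinearMap.coe_coe]
  rw [hs] at e00 e10
  rw [hsd] at e10
  have : 2 * det2 b (blockV G w₀ z₀) * (b.coord 0 (ell G w₀ z₀ v (b 0)) +
      b.coord 1 (ell G w₀ z₀ v (b 1))) = 2 * det2 b (blockV G w₀ z₀) *
      fderiv ℝ (sig b G w₀) z₀ v := by
    rw [e]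
    unfold det2
    linear_combination 2 * blockV G w₀ z₀ (b 1) (b 1) * e00 - 2 * blockV G w₀ z₀ (b 0) (b 1) * e01
      + 2 * blockV G w₀ z₀ (b 0) (b 0) * e11 - 2 * blockV G w₀ z₀ (b 0) (b 1) * e10
  exact mul_left_cancel₀ (by positivity) this

theorem trace_ell_sq (b : Module.Basis (Fin 2) ℝ V) (h : BlockAt G w₀ z₀) (v : W) :
    (1 / 2) * (LinearMap.trace ℝ V (ell G w₀ z₀ v : V →ₗ[ℝ] V)) ^ 2 ≤
      LinearMap.trace ℝ V ((ell G w₀ z₀ v).comp (ell G w₀ z₀ v) : V →L[ℝ] V) := by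
  have hpos : 0 < det2 b (blockV G w₀ z₀) :=
    det2_pos b h.goodV.2.1.self_of_nhds h.goodV.2.2.self_of_nhds
  have hs := h.goodV.2.1.self_of_nhds (b 1) (b 0)
  have e01 := ell_eqs b h v 0 1
  have e10 := ell_eqs b h v 1 0
  have hsd := fderiv_blockV_symm h v (b 1) (b 0)
  rw [trace2 b, trace2 b]
  simp only [ContinuousLinearMap.coe_coe, ContinuousLinearMap.comp_apply]
  rw [hs, hsd] at e10
  have ha : 0 < blockV G w₀ z₀ (b 0) (b 0) := h.goodV.2.2.self_of_nhds _ (b.ne_zero 0)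
  have hc : 0 < blockV G w₀ z₀ (b 1) (b 1) := h.goodV.2.2.self_of_nhds _ (b.ne_zero 1)
  have f0 : b.coord 0 (ell G w₀ z₀ v (ell G w₀ z₀ v (b 0))) =
      b.coord 0 (ell G w₀ z₀ v (b 0)) * b.coord 0 (ell G w₀ z₀ v (b 0)) +
      b.coord 1 (ell G w₀ z₀ v (b 0)) * b.coord 0 (ell G w₀ z₀ v (b 1)) := by
    conv_lhs => rw [expand2 b (ell G w₀ z₀ v (b 0))]
    simp only [map_add, map_smul, smul_eq_mul]
  have f1 : b.coord 1 (ell G w₀ z₀ v (ell G w₀ z₀ v (b 1))) =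
      b.coord 0 (ell G w₀ z₀ v (b 1)) * b.coord 1 (ell G w₀ z₀ v (b 0)) +
      b.coord 1 (ell G w₀ z₀ v (b 1)) * b.coord 1 (ell G w₀ z₀ v (b 1)) := by
    conv_lhs => rw [expand2 b (ell G w₀ z₀ v (b 1))]
    simp only [map_add, map_smul, smul_eq_mul]
  rw [f0, f1]
  set x0 := b.coord 0 (ell G w₀ z₀ v (b 0))
  set x1 := b.coord 1 (ell G w₀ z₀ v (b 0))
  set y0 := b.coord 0 (ell G w₀ z₀ v (b 1))
  set y1 := b.coord 1 (ell G w₀ z₀ v (b 1))
  unfold det2 at hpos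
  set a := blockV G w₀ z₀ (b 0) (b 0)
  set β := blockV G w₀ z₀ (b 0) (b 1)
  set c := blockV G w₀ z₀ (b 1) (b 1)
  have key : β * (x0 - y1) = a * y0 - c * x1 := by linarith
  have h1 : 0 ≤ (a * c) * ((x0 - y1) ^ 2 / 2 + 2 * x1 * y0) := by
    have h2 : (a * c) * ((x0 - y1) ^ 2 / 2 + 2 * x1 * y0) =
        (a * c - β ^ 2) * (x0 - y1) ^ 2 / 2 + (a * y0 + c * x1) ^ 2 / 2 := by
      have h3 : β ^ 2 * (x0 - y1) ^ 2 = (a * y0 - c * x1) ^ 2 := by rw [← key]; ring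
      linear_combination (1/2) * h3
    rw [h2]
    positivity
  have h4 : 0 ≤ (x0 - y1) ^ 2 / 2 + 2 * x1 * y0 :=
    nonneg_of_mul_nonneg_right h1 (mul_pos ha hc)
  nlinarith

/-- the trace as a continuous linear map on continuous linear maps -/
noncomputable def trCLM (V : Type*) [NormedAddCommGroup V] [NormedSpace ℝ V]
    [FiniteDimensional ℝ V] : (V →L[ℝ] V) →L[ℝ] ℝ :=
  LinearMap.toContinuousLinearMap ((LinearMap.trace ℝ V).comp (ContinuousLinearMap.coeLM ℝ))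

theorem trCLM_apply (L : V →L[ℝ] V) : trCLM V L = LinearMap.trace ℝ V (L : V →ₗ[ℝ] V) := rfl

theorem trace_fderiv_ell (b : Module.Basis (Fin 2) ℝ V) (h : BlockAt G w₀ z₀) (v y : W) :
    LinearMap.trace ℝ V (fderiv ℝ (fun z => ell G w₀ z v) z₀ y : V →ₗ[ℝ] V) =
      fderiv ℝ (fderiv ℝ (sig b G w₀)) z₀ y v := by
  have h1 : (fun z => trCLM V (ell G w₀ z v)) =ᶠ[𝓝 z₀] fun z => fderiv ℝ (sig b G w₀) z v := by
    filter_upwards [h.eventually] with z hz
    exact trace_ell b hz v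
  have h2 : HasFDerivAt (fun z => trCLM V (ell G w₀ z v))
      ((trCLM V).comp (fderiv ℝ (fun z => ell G w₀ z v) z₀)) z₀ :=
    (trCLM V).hasFDerivAt.comp z₀ (h.differentiableAt_ell v).hasFDerivAt
  have hs : ContDiffAt ℝ 2 (sig b G w₀) z₀ := contDiffAt_sig b h h.goodV.1
  have h3 : HasFDerivAt (fun z => fderiv ℝ (sig b G w₀) z v)
      ((fderiv ℝ (fderiv ℝ (sig b G w₀)) z₀).flip v) z₀ := by
    have := (differentiableAt_fderiv hs).hasFDerivAt.clm_apply (hasFDerivAt_const v z₀)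
    refine this.congr_fderiv ?_
    ext x
    simp
  have h4 := congrArg (fun L => L y) (h2.unique (h3.congr_of_eventuallyEq h1))
  simpa [trCLM_apply] using h4

/-- **Ricci curvature in the direction of the second factor.** -/
theorem ricci_block_le (b : Module.Basis (Fin 2) ℝ V) (h : BlockAt G w₀ z₀) (v : W) :
    ricci G (w₀, z₀) (0, v) (0, v) ≤ ricci (blockW G w₀) z₀ v v
      - hess (sig b G w₀) (blockW G w₀) z₀ v v - (1 / 2) * (fderiv ℝ (sig b G w₀) z₀ v) ^ 2 := by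
  rw [h.ricci_eq]
  have h1 : LinearMap.trace ℝ V (aLin G w₀ z₀ v) =
      - fderiv ℝ (fderiv ℝ (sig b G w₀)) z₀ v v
      + fderiv ℝ (sig b G w₀) z₀ (chris (blockW G w₀) z₀ v v)
      - LinearMap.trace ℝ V ((ell G w₀ z₀ v).comp (ell G w₀ z₀ v) : V →L[ℝ] V) := by
    rw [← trace_fderiv_ell b h, ← trace_ell b h]
    simp only [← trCLM_apply, aLin]
    simp only [map_sub, map_add, map_neg]
  have h2 := trace_ell_sq b h v
  rw [trace_ell b h] at h2
  rw [h1, hess]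
  linarith

end Pool.Agent.Helper23.Ric
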