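import Mathlib
import Pool.Agent.Helper23.Ric.Two

/-! The local form of the theorem: positivity of the trace of the Ricci curvature of a block metric
over the second factor gives positive scalar curvature of a conformal metric on that factor. -/

set_option maxSynthPendingDepth 3
set_option linter.unusedSectionVars false
set_option linter.deprecated false

namespace Pool.Agent.Helper23.Ric

open Filter Topology
open scoped ContDiff

variable {V W : Type*} [NormedAddCommGroup V] [NormedSpace ℝ V] [FiniteDimensional ℝ V]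
  [NormedAddCommGroup W] [NormedSpace ℝ W] [FiniteDimensional ℝ W]

variable {G : V × W → (V × W) →L[ℝ] (V × W) →L[ℝ] ℝ} {w₀ : V} {z₀ : W}

theorem ortho_basis {n : ℕ} {B : W →L[ℝ] W →L[ℝ] ℝ} {e : Fin n → W} (he : IsOrtho B e)
    (hn : n = Module.finrank ℝ W) :
    ∃ b : Module.Basis (Fin n) ℝ W, (∀ i, b i = e i) ∧ ∀ x i, b.coord i x = B x (e i) := by
  have hsum : ∀ (c : Fin n → ℝ) (i : Fin n), B (∑ j, c j • e j) (e i) = c i := by
    intro c i
    rw [map_sum, ContinuousLinearMap.sum_apply]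
    simp only [map_smul, ContinuousLinearMap.smul_apply, he _ i, smul_eq_mul, mul_ite, mul_one,
      mul_zero]
    simp
  have hli : LinearIndependent ℝ e := by
    rw [Fintype.linearIndependent_iff]
    intro c hc i
    rw [← hsum c i, hc, map_zero, ContinuousLinearMap.zero_apply]
  have hcard : Fintype.card (Fin n) = Module.finrank ℝ W := by rw [Fintype.card_fin, hn]
  rcases n with _ | n
  · have : Module.finrank ℝ W = 0 := hn.symm
    have hsub : Subsingleton W := Module.finrank_zero_iff.1 this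
    refine ⟨Module.Basis.empty W, fun i => i.elim0, fun x i => i.elim0⟩
  · refine ⟨basisOfLinearIndependentOfCardEqFinrank hli hcard, fun i => by simp, fun x i => ?_⟩
    set b := basisOfLinearIndependentOfCardEqFinrank hli hcard with hb
    have h1 : x = ∑ j, b.coord j x • e j := by
      have := b.sum_repr x
      simp only [hb, coe_basisOfLinearIndependentOfCardEqFinrank] at this
      exact this.symm
    conv_rhs => rw [h1]
    rw [hsum]

theorem trace_ortho {n : ℕ} {B : W →L[ℝ] W →L[ℝ] ℝ} {e : Fin n → W} (he : IsOrtho B e)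
    (hn : n = Module.finrank ℝ W) (T : W →ₗ[ℝ] W) :
    LinearMap.trace ℝ W T = ∑ i, B (T (e i)) (e i) := by
  obtain ⟨b, hb, hc⟩ := ortho_basis he hn
  rw [LinearMap.trace_eq_matrix_trace ℝ b, Matrix.trace]
  refine Finset.sum_congr rfl fun i _ => ?_
  rw [Matrix.diag_apply, LinearMap.toMatrix_apply, ← hc, hb]
  rfl

theorem riem_smul {E : Type*} [NormedAddCommGroup E] [NormedSpace ℝ E] [FiniteDimensional ℝ E]
    {G : E → E →L[ℝ] E →L[ℝ] ℝ} {z : E} (h : GoodAt G z) (c : ℝ) (u v : E) :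
    riem G z u (c • v) (c • v) = c ^ 2 • riem G z u v v := by
  simp only [riem, chris_smul_left, map_smul, chris_smul_right]
  have e1 : fderiv ℝ (fun y => c • c • chris G y v v) z =
        c • c • fderiv ℝ (fun y => chris G y v v) z := by
    have : (fun y => c • c • chris G y v v) = fun y => (c * c) • chris G y v v := by
      funext y; rw [smul_smul]
    rw [this, fderiv_fun_const_smul (differentiableAt_chris h v v) (c * c), smul_smul]
  have e2 : fderiv ℝ (fun y => c • chris G y u v) z =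
        c • fderiv ℝ (fun y => chris G y u v) z :=
      fderiv_fun_const_smul (differentiableAt_chris h u v) c
  rw [e1, e2]
  simp only [ContinuousLinearMap.smul_apply]
  module

theorem ricci_smul {E : Type*} [NormedAddCommGroup E] [NormedSpace ℝ E] [FiniteDimensional ℝ E]
    {G : E → E →L[ℝ] E →L[ℝ] ℝ} {z : E} (h : GoodAt G z) (c : ℝ) (v : E) :
    ricci G z (c • v) (c • v) = c ^ 2 * ricci G z v v := by
  simp only [ricci, riem_smul h, map_smul, smul_eq_mul, Finset.mul_sum]

/-- the conformal factor: `φ = σ / (2 (m - 1))` -/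
noncomputable def phi (m : ℕ) (b : Module.Basis (Fin 2) ℝ V)
    (G : V × W → (V × W) →L[ℝ] (V × W) →L[ℝ] ℝ) (w₀ : V) (z : W) : ℝ :=
  (1 / (2 * ((m : ℝ) - 1))) * sig b G w₀ z

theorem local_psc {m : ℕ} (hm : 2 ≤ m) (hdim : m = Module.finrank ℝ W)
    (b : Module.Basis (Fin 2) ℝ V) (h : BlockAt G w₀ z₀)
    (hR : ∀ e : Fin m → V × W, IsOrtho (G (w₀, z₀)) e →
      0 < ∑ i, ricci G (w₀, z₀) (e i) (e i))
    (e : Fin m → W) (he : IsOrtho (conf (phi m b G w₀) (blockW G w₀) z₀) e) :
    0 < ∑ i, ricci (conf (phi m b G w₀) (blockW G w₀)) z₀ (e i) (e i) := by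
  have hm1 : (0 : ℝ) < (m : ℝ) - 1 := by
    have : (2 : ℝ) ≤ m := by exact_mod_cast hm
    linarith
  have hsig : ContDiffAt ℝ 2 (sig b G w₀) z₀ := contDiffAt_sig b h h.goodV.1
  have hphi : ContDiffAt ℝ 2 (phi m b G w₀) z₀ := contDiffAt_const.mul hsig
  set φ := phi m b G w₀ with hφ
  set H := blockW G w₀ with hH
  have hgood : GoodAt H z₀ := h.goodW
  -- relation between `σ` and `φ`
  have hsf : sig b G w₀ = fun z => (2 * ((m : ℝ) - 1)) * φ z := by
    funext z
    rw [hφ, phi]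
    field_simp
  have hd1 : ∀ y, ContDiffAt ℝ 2 φ y → fderiv ℝ (sig b G w₀) y = (2 * ((m : ℝ) - 1)) • fderiv ℝ φ y := by
    intro y hy
    rw [hsf]
    exact fderiv_const_mul (hy.differentiableAt (by simp)) _
  have hd2 : fderiv ℝ (fderiv ℝ (sig b G w₀)) z₀ =
      (2 * ((m : ℝ) - 1)) • fderiv ℝ (fderiv ℝ φ) z₀ := by
    have e1 : fderiv ℝ (sig b G w₀) =ᶠ[𝓝 z₀] fun y => (2 * ((m : ℝ) - 1)) • fderiv ℝ φ y := by
      filter_upwards [eventually_contDiff2 hphi] with y hy
      exact hd1 y hy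
    rw [e1.fderiv_eq]
    exact fderiv_fun_const_smul (differentiableAt_fderiv hphi) _
  have hhess : ∀ v, hess (sig b G w₀) H z₀ v v = (2 * ((m : ℝ) - 1)) * hess φ H z₀ v v := by
    intro v
    simp only [hess, hd1 z₀ hphi, hd2, ContinuousLinearMap.smul_apply, smul_eq_mul]
    ring
  -- rescaled frame
  set s := Real.exp (φ z₀) with hs
  have hspos : 0 < s := Real.exp_pos _
  have hs2 : Real.exp (2 * φ z₀) = s ^ 2 := by
    rw [hs, ← Real.exp_nat_mul]; norm_num
  set e' : Fin m → W := fun i => s • e i with he'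
  have hoH : IsOrtho (H z₀) e' := by
    intro i j
    have := he i j
    simp only [conf, ContinuousLinearMap.smul_apply, smul_eq_mul, hs2] at this
    simp only [he', map_smul, ContinuousLinearMap.smul_apply, smul_eq_mul]
    rw [← this]
    ring
  have hoG : IsOrtho (G (w₀, z₀)) (fun i => ((0 : V), e' i)) := by
    intro i j
    exact hoH i j
  have hpos := hR _ hoG
  -- bound
  have hbound : ∑ i, ricci G (w₀, z₀) (0, e' i) (0, e' i) ≤
      ∑ i, (ricci H z₀ (e' i) (e' i) - (2 * ((m : ℝ) - 1)) * hess φ H z₀ (e' i) (e' i)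
        - (1 / 2) * ((2 * ((m : ℝ) - 1)) * fderiv ℝ φ z₀ (e' i)) ^ 2) := by
    refine Finset.sum_le_sum fun i _ => ?_
    have := ricci_block_le b h (e' i)
    rw [← hH, hhess, hd1 z₀ hphi] at this
    simpa only [ContinuousLinearMap.smul_apply, smul_eq_mul] using this
  -- trace identities
  have htr : LinearMap.trace ℝ W (dgrad φ H z₀) = ∑ i, hess φ H z₀ (e' i) (e' i) := by
    rw [trace_ortho hoH hdim]
    exact Finset.sum_congr rfl fun i _ => dgrad_spec hgood hphi _ _
  have hgr : fderiv ℝ φ z₀ (grad φ H z₀) = ∑ i, fderiv ℝ φ z₀ (e' i) ^ 2 := by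
    have h1 : LinearMap.trace ℝ W ((fderiv ℝ φ z₀ : W →ₗ[ℝ] ℝ).smulRight (grad φ H z₀)) =
        fderiv ℝ φ z₀ (grad φ H z₀) := by rw [LinearMap.trace_smulRight]; rfl
    rw [← h1, trace_ortho hoH hdim]
    refine Finset.sum_congr rfl fun i _ => ?_
    simp only [LinearMap.smulRight_apply, map_smul, ContinuousLinearMap.smul_apply, smul_eq_mul,
      grad_spec hgood, ContinuousLinearMap.coe_coe]
    ring
  have hc : ∀ i, ricci (conf φ H) z₀ (e' i) (e' i) = ricci H z₀ (e' i) (e' i)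
      - ((m : ℝ) - 2) * (hess φ H z₀ (e' i) (e' i) - fderiv ℝ φ z₀ (e' i) ^ 2)
      - (∑ i, hess φ H z₀ (e' i) (e' i)
        + ((m : ℝ) - 2) * ∑ i, fderiv ℝ φ z₀ (e' i) ^ 2) := by
    intro i
    rw [ricci_conf hgood hphi, htr, hgr, ← hdim, hoH i i, if_pos rfl, mul_one]
  have hscale : ∀ i, ricci (conf φ H) z₀ (e' i) (e' i) =
      s ^ 2 * ricci (conf φ H) z₀ (e i) (e i) := by
    intro i
    exact ricci_smul (conf_good hgood hphi) s (e i)
  have hfinal : s ^ 2 * ∑ i, ricci (conf φ H) z₀ (e i) (e i) =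
      ∑ i, ricci H z₀ (e' i) (e' i)
        - 2 * ((m : ℝ) - 1) * ∑ i, hess φ H z₀ (e' i) (e' i)
        - ((m : ℝ) - 1) * ((m : ℝ) - 2) * ∑ i, fderiv ℝ φ z₀ (e' i) ^ 2 := by
    rw [Finset.mul_sum]
    simp only [← hscale, hc, Finset.sum_sub_distrib, Finset.sum_const, Finset.card_univ,
      Fintype.card_fin, ← Finset.mul_sum, nsmul_eq_mul]
    ring
  have hlow : 0 < ∑ i, ricci H z₀ (e' i) (e' i)
        - 2 * ((m : ℝ) - 1) * ∑ i, hess φ H z₀ (e' i) (e' i)
        - 2 * ((m : ℝ) - 1) ^ 2 * ∑ i, fderiv ℝ φ z₀ (e' i) ^ 2 := by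
    refine lt_of_lt_of_le (lt_of_lt_of_le hpos hbound) (le_of_eq ?_)
    simp only [Finset.sum_sub_distrib, ← Finset.mul_sum, mul_pow]
    ring
  have hnn : 0 ≤ ∑ i, fderiv ℝ φ z₀ (e' i) ^ 2 := Finset.sum_nonneg fun i _ => sq_nonneg _
  have hle : ((m : ℝ) - 1) * ((m : ℝ) - 2) * ∑ i, fderiv ℝ φ z₀ (e' i) ^ 2 ≤
      2 * ((m : ℝ) - 1) ^ 2 * ∑ i, fderiv ℝ φ z₀ (e' i) ^ 2 := by
    apply mul_le_mul_of_nonneg_right _ hnn
    nlinarith
  have : 0 < s ^ 2 * ∑ i, ricci (conf φ H) z₀ (e i) (e i) := by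
    rw [hfinal]; linarith
  exact (pos_iff_pos_of_mul_pos this).1 (by positivity)

end Pool.Agent.Helper23.Ric
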