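import Mathlib
import Pool.Agent.Helper23.Ric.Final

/-! Riemannian metrics on manifolds, in charts. -/

set_option maxSynthPendingDepth 3
set_option linter.unusedSectionVars false
set_option linter.deprecated false

namespace Pool.Agent.Helper23.Ric

open Filter Topology
open scoped ContDiff Manifold

section facts

variable {E : Type*} [NormedAddCommGroup E] [NormedSpace ℝ E] {H : Type*} [TopologicalSpace H]
  {I : ModelWithCorners ℝ E H} [I.Boundaryless] {M : Type*} [TopologicalSpace M]
  [ChartedSpace H M] [IsManifold I 1 M] [FiniteDimensional ℝ E]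

variable (I) in
/-- the derivative of the inverse chart, as a map on the model space -/
noncomputable def dsymm (p : M) (z : E) : E →L[ℝ] E :=
  mfderiv 𝓘(ℝ, E) I (extChartAt I p).symm z

/-- the form at a point, as a form on the model space -/
def Forms.at (g : Forms I M) (q : M) : E →L[ℝ] E →L[ℝ] ℝ := g q

theorem inChart_apply (g : Forms I M) (p : M) (z v w : E) :
    inChart I g p z v w = g.at ((extChartAt I p).symm z) (dsymm I p z v) (dsymm I p z w) := rfl

theorem inChart_eq (g : Forms I M) (p : M) (z : E) :
    inChart I g p z = (g.at ((extChartAt I p).symm z)).bilinearComp (dsymm I p z) (dsymm I p z) :=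
  rfl

theorem RMetric.at_symm (g : RMetric I M) (q : M) (v w : E) : g.form.at q v w = g.form.at q w v :=
  g.symm q v w

theorem RMetric.at_pos (g : RMetric I M) (q : M) {v : E} (hv : v ≠ 0) : 0 < g.form.at q v v :=
  g.pos q v hv

theorem mfderivWithin_eq (p : M) (z : E) :
    mfderivWithin 𝓘(ℝ, E) I (extChartAt I p).symm (Set.range I) z =
      mfderiv 𝓘(ℝ, E) I (extChartAt I p).symm z := by
  rw [I.range_eq_univ, mfderivWithin_univ]

theorem mdiff_symm {p : M} {z : E} (hz : z ∈ (extChartAt I p).target) :
    MDifferentiableAt 𝓘(ℝ, E) I (extChartAt I p).symm z := by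
  have := mdifferentiableWithinAt_extChartAt_symm hz
  rwa [I.range_eq_univ, mdifferentiableWithinAt_univ] at this

theorem dsymm_injective {p : M} {z : E} (hz : z ∈ (extChartAt I p).target) :
    Function.Injective (dsymm I p z) := by
  have h1 := isInvertible_mfderivWithin_extChartAt_symm (I := I) hz
  rw [mfderivWithin_eq] at h1
  exact h1.injective

theorem dsymm_self (p : M) : dsymm I p (extChartAt I p p) = ContinuousLinearMap.id ℝ E := by
  have h1 := mfderivWithin_range_extChartAt_symm (I := I) (x := p)
  rw [mfderivWithin_eq] at h1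
  exact h1

theorem target_nhds (p : M) : (extChartAt I p).target ∈ 𝓝 (extChartAt I p p) := by
  have := extChartAt_target_mem_nhdsWithin (I := I) p
  rwa [I.range_eq_univ, nhdsWithin_univ] at this

theorem target_eventually (p : M) :
    ∀ᶠ z in 𝓝 (extChartAt I p p), z ∈ (extChartAt I p).target := target_nhds p

theorem goodAt_chart (g : RMetric I M) (p : M) :
    GoodAt (inChart I g.form p) (extChartAt I p p) := by
  refine ⟨(g.smooth p).of_le (by norm_cast), ?_, ?_⟩
  · exact Eventually.of_forall fun y v w => g.symm _ _ _
  · filter_upwards [target_eventually p] with y hy v hv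
    rw [inChart_apply]
    apply g.at_pos
    intro h0
    apply hv
    apply dsymm_injective hy
    rw [h0, map_zero]

theorem PosRicci.kPos {g : RMetric I M} (h : PosRicci g) {k : ℕ} (hk : 0 < k) : KPosRicci k g := by
  intro p e he
  have hne : (Finset.univ : Finset (Fin k)).Nonempty := ⟨⟨0, hk⟩, Finset.mem_univ _⟩
  refine Finset.sum_pos (fun i _ => h p (e i) ?_) hne
  intro h0
  have := he i i
  rw [h0] at this
  simp at this

end facts

end Pool.Agent.Helper23.Ric
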