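import Mathlib
import Pool.Agent.Helper23.Ric.Man

/-! Riemannian metrics on products of manifolds. -/

set_option maxSynthPendingDepth 3
set_option linter.unusedSectionVars false
set_option linter.deprecated false

namespace Pool.Agent.Helper23.Ric

open Filter Topology
open scoped ContDiff Manifold

variable {E₁ E₂ : Type*} [NormedAddCommGroup E₁] [NormedSpace ℝ E₁] [FiniteDimensional ℝ E₁]
  [NormedAddCommGroup E₂] [NormedSpace ℝ E₂] [FiniteDimensional ℝ E₂]
  {H₁ H₂ : Type*} [TopologicalSpace H₁] [TopologicalSpace H₂]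
  {I : ModelWithCorners ℝ E₁ H₁} {J : ModelWithCorners ℝ E₂ H₂} [I.Boundaryless] [J.Boundaryless]
  {M N : Type*} [TopologicalSpace M] [TopologicalSpace N]
  [ChartedSpace H₁ M] [IsManifold I 1 M] [ChartedSpace H₂ N] [IsManifold J 1 N]

theorem prod_symm_apply (x : M) (y : N) (p : E₁ × E₂) :
    (extChartAt (I.prod J) (x, y)).symm p =
      ((extChartAt I x).symm p.1, (extChartAt J y).symm p.2) := by
  rw [extChartAt_prod]; rfl

theorem prod_symm_eq (x : M) (y : N) :
    ((extChartAt (I.prod J) (x, y)).symm : E₁ × E₂ → M × N) =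
      fun p => ((extChartAt I x).symm p.1, (extChartAt J y).symm p.2) := by
  funext p
  exact prod_symm_apply x y p

theorem prod_self (x : M) (y : N) :
    extChartAt (I.prod J) (x, y) (x, y) = (extChartAt I x x, extChartAt J y y) := by
  rw [extChartAt_prod]; rfl

theorem dsymm_prod {x : M} {y : N} {w : E₁} {z : E₂} (hw : w ∈ (extChartAt I x).target)
    (hz : z ∈ (extChartAt J y).target) :
    dsymm (I.prod J) (x, y) (w, z) = (dsymm I x w).prodMap (dsymm J y z) := by
  unfold dsymm
  rw [prod_symm_eq]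
  have hf : MDifferentiableAt 𝓘(ℝ, E₁ × E₂) 𝓘(ℝ, E₁) (Prod.fst : E₁ × E₂ → E₁) (w, z) :=
    differentiableAt_fst.mdifferentiableAt
  have hs : MDifferentiableAt 𝓘(ℝ, E₁ × E₂) 𝓘(ℝ, E₂) (Prod.snd : E₁ × E₂ → E₂) (w, z) :=
    differentiableAt_snd.mdifferentiableAt
  have h1 : MDifferentiableAt 𝓘(ℝ, E₁ × E₂) I (fun p : E₁ × E₂ => (extChartAt I x).symm p.1)
      (w, z) := (mdiff_symm hw).comp (w, z) hf
  have h2 : MDifferentiableAt 𝓘(ℝ, E₁ × E₂) J (fun p : E₁ × E₂ => (extChartAt J y).symm p.2)
      (w, z) := (mdiff_symm hz).comp (w, z) hs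
  have h3 : mfderiv 𝓘(ℝ, E₁ × E₂) I (fun p : E₁ × E₂ => (extChartAt I x).symm p.1) (w, z) =
      (mfderiv 𝓘(ℝ, E₁) I (extChartAt I x).symm w).comp
        (mfderiv 𝓘(ℝ, E₁ × E₂) 𝓘(ℝ, E₁) (Prod.fst : E₁ × E₂ → E₁) (w, z)) :=
    mfderiv_comp (I' := 𝓘(ℝ, E₁)) (w, z) (mdiff_symm hw) hf
  have h4 : mfderiv 𝓘(ℝ, E₁ × E₂) J (fun p : E₁ × E₂ => (extChartAt J y).symm p.2) (w, z) =
      (mfderiv 𝓘(ℝ, E₂) J (extChartAt J y).symm z).comp
        (mfderiv 𝓘(ℝ, E₁ × E₂) 𝓘(ℝ, E₂) (Prod.snd : E₁ × E₂ → E₂) (w, z)) :=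
    mfderiv_comp (I' := 𝓘(ℝ, E₂)) (w, z) (mdiff_symm hz) hs
  have h5 := mfderiv_prodMk h1 h2
  rw [h5, h3, h4]
  rw [mfderiv_eq_fderiv, mfderiv_eq_fderiv, fderiv_fst, fderiv_snd]
  rfl

theorem tendsto_fst' {V W : Type*} [TopologicalSpace V] [TopologicalSpace W] (w₀ : V) (z₀ : W) :
    Tendsto (fun p : V × W => p.1) (𝓝 (w₀, z₀)) (𝓝 w₀) :=
  continuous_fst.tendsto (w₀, z₀)

theorem target_prod_eventually (x : M) (y : N) :
    ∀ᶠ p in 𝓝 (extChartAt I x x, extChartAt J y y),
      p.1 ∈ (extChartAt I x).target ∧ p.2 ∈ (extChartAt J y).target := by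
  have h1 := (tendsto_fst' (extChartAt I x x) (extChartAt J y y)).eventually (target_eventually x)
  have h2 := (tendsto_snd' (extChartAt I x x) (extChartAt J y y)).eventually (target_eventually y)
  exact h1.and h2

theorem inChart_prod_apply (g : RMetric (I.prod J) (M × N)) {x : M} {y : N} {w : E₁} {z : E₂}
    (hw : w ∈ (extChartAt I x).target) (hz : z ∈ (extChartAt J y).target) (a b : E₁ × E₂) :
    inChart (I.prod J) g.form (x, y) (w, z) a b =
      g.form.at ((extChartAt I x).symm w, (extChartAt J y).symm z)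
        (dsymm I x w a.1, dsymm J y z a.2) (dsymm I x w b.1, dsymm J y z b.2) := by
  rw [inChart_apply, dsymm_prod hw hz, prod_symm_apply]
  rfl

theorem block_chart (g : RMetric (I.prod J) (M × N)) (ho : OrthSlices g) (hc : ConstSlices g)
    (x : M) (y : N) :
    BlockAt (inChart (I.prod J) g.form (x, y)) (extChartAt I x x) (extChartAt J y y) := by
  refine ⟨?_, ?_, ?_⟩
  · have := goodAt_chart g (x, y)
    rwa [prod_self] at this
  · filter_upwards [target_prod_eventually (I := I) (J := J) x y] with p hp u v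
    obtain ⟨w, z⟩ := p
    rw [inChart_prod_apply g hp.1 hp.2]
    simp only [map_zero]
    exact ho _ _ _ _
  · filter_upwards [target_prod_eventually (I := I) (J := J) x y] with p hp v v'
    obtain ⟨w, z⟩ := p
    have hx := mem_of_mem_nhds (target_nhds (I := I) x)
    rw [blockW_apply, inChart_prod_apply g hp.1 hp.2, inChart_prod_apply g hx hp.2]
    simp only [map_zero]
    exact hc _ _ _ _ _

/-- The form on the tangent space of `N` at `y` given by the slice through `x₀`. -/
noncomputable def sliceForm (g : RMetric (I.prod J) (M × N)) (x₀ : M) (y : N) :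
    E₂ →L[ℝ] E₂ →L[ℝ] ℝ :=
  (g.form.at (x₀, y)).bilinearComp (ContinuousLinearMap.inr ℝ E₁ E₂)
    (ContinuousLinearMap.inr ℝ E₁ E₂)

/-- The form on the tangent space of `M` at `x₀` given by the slice `M × {y}`. -/
noncomputable def fibreForm (g : RMetric (I.prod J) (M × N)) (x₀ : M) (y : N) :
    E₁ →L[ℝ] E₁ →L[ℝ] ℝ :=
  (g.form.at (x₀, y)).bilinearComp (ContinuousLinearMap.inl ℝ E₁ E₂)
    (ContinuousLinearMap.inl ℝ E₁ E₂)

/-- the conformal factor as a function on `N` -/
noncomputable def psi (m : ℕ) (b : Module.Basis (Fin 2) ℝ E₁) (g : RMetric (I.prod J) (M × N))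
    (x₀ : M) (y : N) : ℝ :=
  (1 / (2 * ((m : ℝ) - 1))) * ((1 / 2) * Real.log (det2 b (fibreForm g x₀ y)))

/-- the conformal metric on `N` -/
noncomputable def newForm (m : ℕ) (b : Module.Basis (Fin 2) ℝ E₁)
    (g : RMetric (I.prod J) (M × N)) (x₀ : M) : Forms J N :=
  fun y => Real.exp (2 * psi m b g x₀ y) • sliceForm g x₀ y

theorem newForm_chart (m : ℕ) (b : Module.Basis (Fin 2) ℝ E₁)
    (g : RMetric (I.prod J) (M × N)) (x₀ : M) (y : N) :
    inChart J (newForm m b g x₀) y =ᶠ[𝓝 (extChartAt J y y)]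
      conf (phi m b (inChart (I.prod J) g.form (x₀, y)) (extChartAt I x₀ x₀))
        (blockW (inChart (I.prod J) g.form (x₀, y)) (extChartAt I x₀ x₀)) := by
  filter_upwards [target_eventually y] with z hz
  have hx := mem_of_mem_nhds (target_nhds (I := I) x₀)
  have hV : blockV (inChart (I.prod J) g.form (x₀, y)) (extChartAt I x₀ x₀) z =
      fibreForm g x₀ ((extChartAt J y).symm z) := by
    ext u u'
    rw [blockV_apply, inChart_prod_apply g hx hz, dsymm_self, extChartAt_to_inv]
    simp only [map_zero]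
    rfl
  have hphi : phi m b (inChart (I.prod J) g.form (x₀, y)) (extChartAt I x₀ x₀) z =
      psi m b g x₀ ((extChartAt J y).symm z) := by
    rw [phi, sig, psi, hV]
  ext v v'
  rw [inChart_apply, conf, hphi]
  simp only [ContinuousLinearMap.smul_apply]
  rw [blockW_apply, inChart_prod_apply g hx hz, extChartAt_to_inv]
  simp only [map_zero]
  rfl

theorem slices_psc {m : ℕ} (hm : 2 ≤ m) (hdim : m = Module.finrank ℝ E₂)
    (h2 : Module.finrank ℝ E₁ = 2) (x₀ : M)
    (g : RMetric (I.prod J) (M × N)) (ho : OrthSlices g) (hc : ConstSlices g)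
    (hR : KPosRicci m g) : ∃ h : RMetric J N, KPosRicci m h := by
  let b : Module.Basis (Fin 2) ℝ E₁ := (Module.finBasis ℝ E₁).reindex (finCongr h2)
  have hx := mem_of_mem_nhds (target_nhds (I := I) x₀)
  refine ⟨⟨newForm m b g x₀, ?_, ?_, ?_⟩, ?_⟩
  · intro y v w
    change Real.exp _ * _ = Real.exp _ * _
    congr 1
    exact g.at_symm _ _ _
  · intro y v hv
    change 0 < Real.exp _ * _
    refine mul_pos (Real.exp_pos _) (g.at_pos _ ?_)
    intro h0
    apply hv
    have : ((0 : E₁), (v : E₂)) = 0 := h0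
    exact (Prod.mk.inj this).2
  · intro y
    have hb := block_chart g ho hc x₀ y
    have hs : ContDiffAt ℝ ∞ (inChart (I.prod J) g.form (x₀, y))
        (extChartAt I x₀ x₀, extChartAt J y y) := by
      have := g.smooth (x₀, y)
      rwa [prod_self] at this
    refine ContDiffAt.congr_of_eventuallyEq ?_ (newForm_chart m b g x₀ y)
    have hW : ContDiffAt ℝ ∞ (blockW (inChart (I.prod J) g.form (x₀, y)) (extChartAt I x₀ x₀))
        (extChartAt J y y) := contDiffAt_block (ContinuousLinearMap.inr ℝ E₁ E₂) hs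
    have hV : ContDiffAt ℝ ∞ (blockV (inChart (I.prod J) g.form (x₀, y)) (extChartAt I x₀ x₀))
        (extChartAt J y y) := contDiffAt_block (ContinuousLinearMap.inl ℝ E₁ E₂) hs
    have hphi : ContDiffAt ℝ ∞ (phi m b (inChart (I.prod J) g.form (x₀, y))
        (extChartAt I x₀ x₀)) (extChartAt J y y) :=
      contDiffAt_const.mul (contDiffAt_sig b hb hV)
    exact ((contDiffAt_const.mul hphi).exp).smul hW
  · intro y e he
    have hb := block_chart g ho hc x₀ y
    have heq := newForm_chart m b g x₀ y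
    have hloc := local_psc hm hdim b hb (by
      intro e' he'
      have := hR (x₀, y) e'
      rw [prod_self] at this
      exact this he') e (by
      have h1 := heq.self_of_nhds
      simp only at he
      rwa [h1] at he)
    have h2 : ∀ v, ricci (inChart J (newForm m b g x₀) y) (extChartAt J y y) v v =
        ricci (conf (phi m b (inChart (I.prod J) g.form (x₀, y)) (extChartAt I x₀ x₀))
        (blockW (inChart (I.prod J) g.form (x₀, y)) (extChartAt I x₀ x₀))) (extChartAt J y y)
        v v := by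
      intro v
      have hch : ∀ v w, (fun q => chris (inChart J (newForm m b g x₀) y) q v w)
          =ᶠ[𝓝 (extChartAt J y y)] (fun q => chris
            (conf (phi m b (inChart (I.prod J) g.form (x₀, y)) (extChartAt I x₀ x₀))
        (blockW (inChart (I.prod J) g.form (x₀, y)) (extChartAt I x₀ x₀))) q v w) := by
        intro v w
        filter_upwards [heq.eventuallyEq_nhds] with q hq
        simp only [chris, dform₁, dform₂, hq.fderiv_eq, hq.self_of_nhds]
      simp only [ricci, riem]
      refine Finset.sum_congr rfl fun i _ => ?_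
      rw [(hch v v).fderiv_eq, (hch _ v).fderiv_eq]
      have e1 : ∀ a b', chris (inChart J (newForm m b g x₀) y) (extChartAt J y y) a b' =
          chris (conf (phi m b (inChart (I.prod J) g.form (x₀, y)) (extChartAt I x₀ x₀))
        (blockW (inChart (I.prod J) g.form (x₀, y)) (extChartAt I x₀ x₀))) (extChartAt J y y)
          a b' := fun a b' => (hch a b').self_of_nhds
      simp only [e1]
    simp only [h2]
    exact hloc

end Pool.Agent.Helper23.Ric
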