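import Mathlib
import Pool.Agent.Helper23.Ric.ProdMan

/-! Rotation-invariant metrics on `S² × N`. -/

set_option maxSynthPendingDepth 3
set_option linter.unusedSectionVars false
set_option linter.deprecated false

namespace Pool.Agent.Helper23.Ric

open Filter Topology
open scoped ContDiff Manifold

variable {m : ℕ} {N : Type*} [TopologicalSpace N] [ChartedSpace (EuclideanSpace ℝ (Fin m)) N]
  [IsManifold (𝓡 m) 1 N]

theorem contMDiff_sphereMap (A : E3 ≃ₗᵢ[ℝ] E3) : ContMDiff (𝓡 2) (𝓡 2) ∞ (sphereMap A) := by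
  have h1 : ContMDiff (𝓡 2) 𝓘(ℝ, E3) ∞ (fun x : S2 => A (x : E3)) :=
    A.toContinuousLinearEquiv.contDiff.contMDiff.comp contMDiff_coe_sphere
  exact ContMDiff.codRestrict_sphere h1 (fun x => by simp)

/-- derivative of the inclusion of the sphere -/
noncomputable def dcoe (x : S2) : EuclideanSpace ℝ (Fin 2) →L[ℝ] E3 :=
  mfderiv (𝓡 2) 𝓘(ℝ, E3) ((↑) : S2 → E3) x

theorem dcoe_injective (x : S2) : Function.Injective (dcoe x) := mfderiv_coe_sphere_injective x

theorem dcoe_mem (x : S2) (u : EuclideanSpace ℝ (Fin 2)) : dcoe x u ∈ (ℝ ∙ (x : E3))ᗮ := by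
  have h := range_mfderiv_coe_sphere (n := 2) x
  rw [← h]
  exact ⟨u, rfl⟩

theorem dcoe_sphereDeriv (A : E3 ≃ₗᵢ[ℝ] E3) (x : S2) (u : EuclideanSpace ℝ (Fin 2)) :
    dcoe (sphereMap A x) (sphereDeriv A x u) = A (dcoe x u) := by
  have h1 : MDifferentiableAt (𝓡 2) (𝓡 2) (sphereMap A) x :=
    (contMDiff_sphereMap A).mdifferentiable (by simp) x
  have h2 : MDifferentiableAt (𝓡 2) 𝓘(ℝ, E3) ((↑) : S2 → E3) (sphereMap A x) :=
    (contMDiff_coe_sphere (m := 1)).mdifferentiable (by simp) _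
  have h3 : MDifferentiableAt (𝓡 2) 𝓘(ℝ, E3) ((↑) : S2 → E3) x :=
    (contMDiff_coe_sphere (m := 1)).mdifferentiable (by simp) _
  have h4 : MDifferentiableAt 𝓘(ℝ, E3) 𝓘(ℝ, E3) (A : E3 → E3) (x : E3) :=
    A.toContinuousLinearEquiv.differentiableAt.mdifferentiableAt
  have e1 : mfderiv (𝓡 2) 𝓘(ℝ, E3) (fun y : S2 => ((sphereMap A y : S2) : E3)) x =
      (mfderiv (𝓡 2) 𝓘(ℝ, E3) ((↑) : S2 → E3) (sphereMap A x)).comp
        (mfderiv (𝓡 2) (𝓡 2) (sphereMap A) x) := mfderiv_comp x h2 h1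
  have e2 : mfderiv (𝓡 2) 𝓘(ℝ, E3) (fun y : S2 => A (y : E3)) x =
      (mfderiv 𝓘(ℝ, E3) 𝓘(ℝ, E3) (A : E3 → E3) (x : E3)).comp
        (mfderiv (𝓡 2) 𝓘(ℝ, E3) ((↑) : S2 → E3) x) := mfderiv_comp x h4 h3
  have e3 : (fun y : S2 => ((sphereMap A y : S2) : E3)) = fun y : S2 => A (y : E3) := rfl
  rw [e3] at e1
  have e4 := e1.symm.trans e2
  have e5 := congrArg (fun L => L u) e4
  have e6 : mfderiv 𝓘(ℝ, E3) 𝓘(ℝ, E3) (A : E3 → E3) (x : E3) =
      (A.toContinuousLinearEquiv : E3 →L[ℝ] E3) := by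
    rw [mfderiv_eq_fderiv]
    exact A.toContinuousLinearEquiv.fderiv
  rw [e6] at e5
  exact e5

/-- the half turn about the axis through `u` -/
noncomputable def halfTurn (u : E3) : E3 ≃ₗᵢ[ℝ] E3 := (ℝ ∙ u).reflection

theorem det_halfTurn {u : E3} (hu : u ≠ 0) :
    LinearMap.det ((halfTurn u).toLinearEquiv : E3 →ₗ[ℝ] E3) = 1 := by
  have h1 := Submodule.det_reflection (ℝ ∙ u)
  have h2 : Module.finrank ℝ (ℝ ∙ u)ᗮ = 2 := by
    have h3 := Submodule.finrank_add_finrank_orthogonal (ℝ ∙ u)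
    rw [finrank_span_singleton hu] at h3
    have h4 : Module.finrank ℝ E3 = 3 := by simp
    omega
  rw [h2] at h1
  have h5 : ((-1 : ℝ)) ^ 2 = 1 := by norm_num
  rw [h5] at h1
  exact h1

theorem halfTurn_of_mem {u w : E3} (h : w ∈ (ℝ ∙ u)ᗮ) : halfTurn u w = -w :=
  Submodule.reflection_mem_subspace_orthogonalComplement_eq_neg h

theorem halfTurn_self (u : E3) : halfTurn u u = u :=
  Submodule.reflection_mem_subspace_eq_self (Submodule.mem_span_singleton_self u)

theorem invariant_at {g : MetSN m N} (hg : SO3Invariant g)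
    {A : E3 ≃ₗᵢ[ℝ] E3} (hA : LinearMap.det (A.toLinearEquiv : E3 →ₗ[ℝ] E3) = 1)
    {x x' : S2} (hx : A (x : E3) = x') (y : N) (u u' : EuclideanSpace ℝ (Fin 2))
    (v v' : EuclideanSpace ℝ (Fin m)) :
    g.form.at (x', y) (sphereDeriv A x u, v) (sphereDeriv A x u', v') =
      g.form.at (x, y) (u, v) (u', v') := by
  have h := hg A hA x y u u' v v'
  have hx' : sphereMap A x = x' := Subtype.ext hx
  rw [← hx']
  exact h

theorem sphereDeriv_halfTurn (x : S2) (u : EuclideanSpace ℝ (Fin 2)) :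
    sphereDeriv (halfTurn (x : E3)) x u = -u := by
  have hx' : sphereMap (halfTurn (x : E3)) x = x := Subtype.ext (halfTurn_self _)
  have h := dcoe_sphereDeriv (halfTurn (x : E3)) x u
  rw [hx', halfTurn_of_mem (dcoe_mem x u), ← map_neg] at h
  exact dcoe_injective x h

theorem orth_at {g : MetSN m N}
    (hg : SO3Invariant g) (x : S2) (y : N) (u : EuclideanSpace ℝ (Fin 2))
    (v : EuclideanSpace ℝ (Fin m)) : g.form.at (x, y) (u, 0) (0, v) = 0 := by
  have hx0 : (x : E3) ≠ 0 := ne_zero_of_mem_unit_sphere x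
  have h := invariant_at hg (det_halfTurn hx0) (x := x) (x' := x) (halfTurn_self _) y u 0 0 v
  rw [sphereDeriv_halfTurn, sphereDeriv_halfTurn, neg_zero] at h
  have h1 : ((-u, (0 : EuclideanSpace ℝ (Fin m))) :
      EuclideanSpace ℝ (Fin 2) × EuclideanSpace ℝ (Fin m)) = -(u, 0) := by simp
  rw [h1, map_neg, ContinuousLinearMap.neg_apply] at h
  linarith

theorem orthSlices_of_invariant {g : MetSN m N}
    (hg : SO3Invariant g) : OrthSlices g := fun x y u v => orth_at hg x y u v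

theorem exists_halfTurn (x x' : S2) : ∃ u : E3, u ≠ 0 ∧ halfTurn u (x : E3) = x' := by
  have hnx : ‖(x : E3)‖ = 1 := norm_eq_of_mem_sphere x
  have hnx' : ‖(x' : E3)‖ = 1 := norm_eq_of_mem_sphere x'
  by_cases h : (x : E3) + x' = 0
  · -- antipodal points
    have hdim : 0 < Module.finrank ℝ (ℝ ∙ (x : E3))ᗮ := by
      have h3 := Submodule.finrank_add_finrank_orthogonal (ℝ ∙ (x : E3))
      rw [finrank_span_singleton (ne_zero_of_mem_unit_sphere x)] at h3
      have h4 : Module.finrank ℝ E3 = 3 := by simp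
      omega
    obtain ⟨⟨w, hw⟩, hw0⟩ := (Module.finrank_pos_iff_exists_ne_zero).1 hdim
    have hw0' : w ≠ 0 := fun h0 => hw0 (by simp [h0])
    refine ⟨w, hw0', ?_⟩
    rw [halfTurn_of_mem]
    · exact neg_eq_of_add_eq_zero_right h
    · rw [Submodule.mem_orthogonal_singleton_iff_inner_right] at hw ⊢
      rw [real_inner_comm]
      exact hw
  · refine ⟨(x : E3) + x', h, ?_⟩
    have h1 : (x : E3) - x' ∈ (ℝ ∙ ((x : E3) + x'))ᗮ := by
      rw [Submodule.mem_orthogonal_singleton_iff_inner_right]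
      rw [inner_add_left, inner_sub_right, inner_sub_right, real_inner_self_eq_norm_sq,
        real_inner_self_eq_norm_sq, hnx, hnx', real_inner_comm]
      ring
    have h2 : (x : E3) = (1 / 2 : ℝ) • (((x : E3) + x') + ((x : E3) - x')) := by module
    calc halfTurn ((x : E3) + x') (x : E3)
        = halfTurn ((x : E3) + x') ((1 / 2 : ℝ) • (((x : E3) + x') + ((x : E3) - x'))) :=
          congrArg _ h2
      _ = x' := by
          rw [map_smul, map_add, halfTurn_self, halfTurn_of_mem h1]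
          module

theorem constSlices_of_invariant {g : MetSN m N}
    (hg : SO3Invariant g) : ConstSlices g := by
  intro x x' y v v'
  obtain ⟨u, hu, hux⟩ := exists_halfTurn x x'
  have h := invariant_at hg (det_halfTurn hu) hux y 0 0 v v'
  rw [map_zero] at h
  exact h.symm

/-- **Theorem.** -/
theorem main {m : ℕ} (hm : 2 ≤ m) {N : Type*} [TopologicalSpace N]
    [ChartedSpace (EuclideanSpace ℝ (Fin m)) N] [IsManifold (𝓡 m) 1 N]
    (g : MetSN m N) (hg : SO3Invariant g ∨ OrthConst g) (hR : MPosRicciSN g) :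
    ∃ h : MetN m N, PosScalarN h := by
  have hor : OrthSlices g ∧ ConstSlices g := by
    rcases hg with h | h
    · exact ⟨orthSlices_of_invariant h, constSlices_of_invariant h⟩
    · exact h
  have x₀ : S2 := ⟨EuclideanSpace.single 0 1, by simp⟩
  have hfin : m = Module.finrank ℝ (EuclideanSpace ℝ (Fin m)) := by simp
  obtain ⟨h, hh⟩ := slices_psc hm hfin (by simp) x₀ g hor.1 hor.2 hR
  refine ⟨h, ?_⟩
  unfold PosScalarN PosScalar
  rw [← hfin]
  exact hh

end Pool.Agent.Helper23.Ric
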