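import Mathlib

/-! Definitions for the statement: Ricci curvature of a Riemannian metric in coordinates and on
manifolds, the sphere `S²`, and two classes of metrics on `S² × N`. -/

namespace Pool.Agent.Helper23.RicS2

open scoped ContDiff Manifold

section coordinates

variable {E : Type*} [NormedAddCommGroup E] [NormedSpace ℝ E]

/-- The derivative `∂_u G(v,w)` at `z` of a metric `G` in coordinates. -/
noncomputable def dG (G : E → E → E → ℝ) (z u v w : E) : ℝ :=
  fderiv ℝ (fun y => G y v w) z u

/-- The Christoffel symbols `Γ(v,w)` of the metric `G` at `z`: the vector `x` with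
`G(x,u) = (∂_v G(w,u) + ∂_w G(v,u) - ∂_u G(v,w)) / 2` for all `u`. -/
noncomputable def christoffel (G : E → E → E → ℝ) (z v w : E) : E :=
  Classical.epsilon fun x => ∀ u, G z x u = (dG G z v w u + dG G z w v u - dG G z u v w) / 2

/-- The curvature `R(u,v)w` of the metric `G` at `z`. -/
noncomputable def curvature (G : E → E → E → ℝ) (z u v w : E) : E :=
  fderiv ℝ (fun y => christoffel G y v w) z u - fderiv ℝ (fun y => christoffel G y u w) z v
    + christoffel G z u (christoffel G z v w) - christoffel G z v (christoffel G z u w)

/-- The Ricci curvature `Ric(v,v) = tr (u ↦ R(u,v)v)` of the metric `G` at `z`. -/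
noncomputable def ric [FiniteDimensional ℝ E] (G : E → E → E → ℝ) (z v : E) : ℝ :=
  ∑ i, (Module.finBasis ℝ E).coord i (curvature G z (Module.finBasis ℝ E i) v v)

/-- `e` is orthonormal for the form `B`. -/
def Orthonormal {n : ℕ} (B : E → E → ℝ) (e : Fin n → E) : Prop :=
  ∀ i j, B (e i) (e j) = if i = j then 1 else 0

end coordinates

section manifolds

variable {E : Type*} [NormedAddCommGroup E] [NormedSpace ℝ E] {H : Type*} [TopologicalSpace H]
  (I : ModelWithCorners ℝ E H) (M : Type*) [TopologicalSpace M] [ChartedSpace H M]

variable {M}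

/-- The derivative at `x` of a map `f : M → M`; in Mathlib the tangent spaces of `M` are copies of
the model space `E`, identified with it by means of the preferred charts. -/
noncomputable def tangentMap (f : M → M) (x : M) (v : E) : E := mfderiv I I f x v

/-- The derivative at `z` of the inverse of the preferred chart at `p`. -/
noncomputable def chartDeriv (p : M) (z v : E) : E :=
  mfderiv 𝓘(ℝ, E) I (extChartAt I p).symm z v

/-- The expression in the preferred chart at `p` of a family of forms on the tangent spaces. -/
noncomputable def inChart (g : M → E → E → ℝ) (p : M) (z v w : E) : ℝ :=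
  g ((extChartAt I p).symm z) (chartDeriv I p z v) (chartDeriv I p z w)

variable (M)

/-- A smooth Riemannian metric on `M`: a symmetric positive definite bilinear form on each tangent
space, smooth in charts. -/
structure Riem where
  /-- the inner product on the tangent space at each point -/
  form : M → E → E → ℝ
  add : ∀ q u v w, form q (u + v) w = form q u w + form q v w
  smul : ∀ q (c : ℝ) v w, form q (c • v) w = c * form q v w
  symm : ∀ q v w, form q v w = form q w v
  pos : ∀ q v, v ≠ 0 → 0 < form q v v
  smooth : ∀ p v w, ContDiffAt ℝ ∞ (fun z => inChart I form p z v w) (extChartAt I p p)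

variable {M} {I} [FiniteDimensional ℝ E]

/-- `k`-positive Ricci curvature: at every point the sum of the Ricci curvatures over every
orthonormal `k`-frame is positive. -/
def KPosRic (k : ℕ) (g : Riem I M) : Prop :=
  ∀ p : M, ∀ e : Fin k → E, Orthonormal (inChart I g.form p (extChartAt I p p)) e →
    0 < ∑ i, ric (inChart I g.form p) (extChartAt I p p) (e i)

/-- Positive Ricci curvature. -/
def PosRic (g : Riem I M) : Prop :=
  ∀ p : M, ∀ v : E, v ≠ 0 → 0 < ric (inChart I g.form p) (extChartAt I p p) v

end manifolds

/-- Euclidean space of dimension `n`. -/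
abbrev Eucl (n : ℕ) := EuclideanSpace ℝ (Fin n)

instance : Fact (Module.finrank ℝ (Eucl 3) = 2 + 1) := ⟨by simp⟩

/-- The unit sphere in Euclidean three-space. -/
abbrev S2 := Metric.sphere (0 : Eucl 3) 1

/-- The determinant of a linear isometry. -/
noncomputable def isoDet {V : Type*} [NormedAddCommGroup V] [NormedSpace ℝ V] (A : V ≃ₗᵢ[ℝ] V) :
    ℝ := LinearMap.det (A.toLinearEquiv : V →ₗ[ℝ] V)

/-- A rotation of Euclidean three-space. -/
structure Rotation where
  toIso : Eucl 3 ≃ₗᵢ[ℝ] Eucl 3
  det : isoDet toIso = 1

/-- The action of a rotation on the sphere. -/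
noncomputable def Rotation.act (A : Rotation) (x : S2) : S2 := ⟨A.toIso x, by simp⟩

/-- The derivative of this action. -/
noncomputable def Rotation.dact (A : Rotation) (x : S2) (u : Eucl 2) : Eucl 2 :=
  tangentMap (𝓡 2) A.act x u

section product

variable (m : ℕ) (N : Type*) [TopologicalSpace N] [ChartedSpace (Eucl m) N]

/-- Smooth Riemannian metrics on the `m`-dimensional manifold `N`. -/
abbrev RiemN := Riem (𝓡 m) N

/-- Smooth Riemannian metrics on `S² × N`. -/
abbrev RiemSN := Riem ((𝓡 2).prod (𝓡 m)) (S2 × N)

variable {m} {N}

/-- The inner product at `(x,y)` of `(u,v)` and `(u',v')`, with `u, u'` tangent to `S²` at `x` and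
`v, v'` tangent to `N` at `y`. -/
def RiemSN.inner (g : RiemSN m N) (x : S2) (y : N) (u : Eucl 2) (v : Eucl m)
    (u' : Eucl 2) (v' : Eucl m) : ℝ :=
  g.form (x, y) (u, v) (u', v')

/-- `g` is invariant under the action `(x, y) ↦ (A x, y)` of all rotations `A`. -/
def SO3Invariant (g : RiemSN m N) : Prop :=
  ∀ (A : Rotation) x y u v u' v',
    g.inner (A.act x) y (A.dact x u) v (A.dact x u') v' = g.inner x y u v u' v'

/-- The two factors of `S² × N` are orthogonal, and all slices `{x} × N` carry the same metric. -/
def ConstSlices (g : RiemSN m N) : Prop :=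
  (∀ x y u v, g.inner x y u 0 0 v = 0) ∧
    ∀ x x' y v v', g.inner x y 0 v 0 v' = g.inner x' y 0 v 0 v'

/-- Positive Ricci curvature on `S² × N`. -/
def PosRicSN (g : RiemSN m N) : Prop := PosRic g

/-- `k`-positive Ricci curvature on `S² × N`. -/
def KPosRicSN (k : ℕ) (g : RiemSN m N) : Prop := KPosRic k g

/-- Positive scalar curvature on `N`: the sum of the Ricci curvatures over every orthonormal basis
is positive. -/
def PosScalN (h : RiemN m N) : Prop := KPosRic m h

end product

end Pool.Agent.Helper23.RicS2
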