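import Mathlib
import Pool.Agent.Helper23.Ric.Sphere
import Pool.Agent.Helper23.Ric.Stmt

/-! Comparison of the definitions in `Stmt.lean` (forms as functions) with those in `Defs.lean`
(forms as continuous bilinear maps). -/

set_option maxSynthPendingDepth 3
set_option linter.unusedSectionVars false
set_option linter.deprecated false

namespace Pool.Agent.Helper23.RicBridge

open Filter Topology
open scoped ContDiff Manifold
open Pool.Agent.Helper23

theorem contDiffAt_clm {D E F : Type*} [NormedAddCommGroup D] [NormedSpace ℝ D]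
    [NormedAddCommGroup E] [NormedSpace ℝ E] [NormedAddCommGroup F] [NormedSpace ℝ F]
    [FiniteDimensional ℝ E] {n : WithTop ℕ∞} {f : D → E →L[ℝ] F} {x : D}
    (h : ∀ y, ContDiffAt ℝ n (fun z => f z y) x) : ContDiffAt ℝ n f x := by
  let d := Module.finrank ℝ E
  have hd : d = Module.finrank ℝ (Fin d → ℝ) := (Module.finrank_fin_fun ℝ).symm
  let e₁ := ContinuousLinearEquiv.ofFinrankEq hd
  let e₂ := (e₁.arrowCongr (1 : F ≃L[ℝ] F)).trans (ContinuousLinearEquiv.piRing (Fin d))
  have h1 : f = fun z => e₂.symm (e₂ (f z)) := by funext z; simp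
  rw [h1]
  exact e₂.symm.contDiff.contDiffAt.comp x (contDiffAt_pi.2 fun i => h _)

section coordinates

variable {E : Type*} [NormedAddCommGroup E] [NormedSpace ℝ E] [FiniteDimensional ℝ E]
variable {G : E → E →L[ℝ] E →L[ℝ] ℝ} {F : E → E → E → ℝ} {z : E}

theorem dG_eq (h : Ric.GoodAt G z) (hF : ∀ᶠ y in 𝓝 z, ∀ v w, F y v w = G y v w) (u v w : E) :
    RicS2.dG F z u v w = fderiv ℝ G z u v w := by
  have h1 : (fun y => F y v w) =ᶠ[𝓝 z] fun y => G y v w := by
    filter_upwards [hF] with y hy
    exact hy v w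
  rw [RicS2.dG, h1.fderiv_eq, (Ric.hasFDerivAt_apply2 h v w).fderiv]
  simp

theorem christoffel_eq (h : Ric.GoodAt G z) (hF : ∀ᶠ y in 𝓝 z, ∀ v w, F y v w = G y v w)
    (v w : E) : RicS2.christoffel F z v w = Ric.chris G z v w := by
  have hex : ∃ x, ∀ u, F z x u =
      (RicS2.dG F z v w u + RicS2.dG F z w v u - RicS2.dG F z u v w) / 2 := by
    refine ⟨Ric.chris G z v w, fun u => ?_⟩
    rw [hF.self_of_nhds, dG_eq h hF, dG_eq h hF, dG_eq h hF]
    exact Ric.chris_spec h v w u
  have hs := Classical.epsilon_spec hex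
  apply Ric.chris_unique h
  intro u
  have := hs u
  rw [hF.self_of_nhds, dG_eq h hF, dG_eq h hF, dG_eq h hF] at this
  exact this

theorem ric_eq (h : Ric.GoodAt G z) (hF : ∀ᶠ y in 𝓝 z, ∀ v w, F y v w = G y v w) (v : E) :
    RicS2.ric F z v = Ric.ricci G z v v := by
  have hch : ∀ v w, (fun y => RicS2.christoffel F y v w) =ᶠ[𝓝 z] fun y => Ric.chris G y v w := by
    intro v w
    filter_upwards [h.eventually, hF.eventually_nhds] with y hy hy'
    exact christoffel_eq hy hy' v w
  simp only [RicS2.ric, Ric.ricci, RicS2.curvature, Ric.riem]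
  refine Finset.sum_congr rfl fun i _ => ?_
  rw [(hch v v).fderiv_eq, (hch _ v).fderiv_eq]
  simp only [christoffel_eq h hF]

end coordinates

section manifolds

variable {E : Type*} [NormedAddCommGroup E] [NormedSpace ℝ E] [FiniteDimensional ℝ E]
  {H : Type*} [TopologicalSpace H]
  {I : ModelWithCorners ℝ E H} [I.Boundaryless] {M : Type*} [TopologicalSpace M]
  [ChartedSpace H M] [IsManifold I 1 M]

/-- the form at `q` as a continuous bilinear map -/
noncomputable def clmForm (g : RicS2.Riem I M) (q : M) : E →L[ℝ] E →L[ℝ] ℝ :=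
  LinearMap.toContinuousBilinearMap (LinearMap.mk₂ ℝ (fun v w : E => (g.form q v w : ℝ))
    (fun u v w => g.add q u v w) (fun c v w => g.smul q c v w)
    (fun u v w => by
      rw [g.symm q u (v + w), g.add, g.symm q v u, g.symm q w u])
    (fun c v w => by
      rw [g.symm q v (c • w), g.smul, g.symm q w v]; rfl))

theorem clmForm_apply (g : RicS2.Riem I M) (q : M) (v w : E) :
    clmForm g q v w = g.form q v w := rfl

theorem inChart_clm (g : RicS2.Riem I M) (p : M) (z v w : E) :
    Ric.inChart I (clmForm g) p z v w = RicS2.inChart I g.form p z v w := rfl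

/-- the metric in the sense of `Defs.lean` -/
noncomputable def toOld (g : RicS2.Riem I M) : Ric.RMetric I M where
  form := clmForm g
  symm := fun q v w => g.symm q v w
  pos := fun q v hv => g.pos q v hv
  smooth := fun p => contDiffAt_clm fun v => contDiffAt_clm fun w => g.smooth p v w

theorem clm_add (B : E →L[ℝ] E →L[ℝ] ℝ) (u v w : E) : B (u + v) w = B u w + B v w := by
  rw [map_add, ContinuousLinearMap.add_apply]

theorem clm_smul (B : E →L[ℝ] E →L[ℝ] ℝ) (c : ℝ) (v w : E) : B (c • v) w = c * B v w := by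
  rw [map_smul, ContinuousLinearMap.smul_apply, smul_eq_mul]

/-- the metric in the sense of `Stmt.lean` -/
noncomputable def toNew (g : Ric.RMetric I M) : RicS2.Riem I M where
  form := fun q v w => g.form q v w
  add := fun q u v w => clm_add (E := E) (g.form q) u v w
  smul := fun q c v w => clm_smul (E := E) (g.form q) c v w
  symm := fun q v w => g.symm q v w
  pos := fun q v hv => g.pos q v hv
  smooth := fun p _ _ => ((g.smooth p).clm_apply contDiffAt_const).clm_apply contDiffAt_const

theorem ric_toOld (g : RicS2.Riem I M) (p : M) (v : E) :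
    Ric.ricci (Ric.inChart I (toOld g).form p) (extChartAt I p p) v v =
      RicS2.ric (RicS2.inChart I g.form p) (extChartAt I p p) v :=
  (ric_eq (Ric.goodAt_chart (toOld g) p) (Eventually.of_forall fun _ _ _ => rfl) v).symm

theorem ric_toNew (g : Ric.RMetric I M) (p : M) (v : E) :
    RicS2.ric (RicS2.inChart I (toNew g).form p) (extChartAt I p p) v =
      Ric.ricci (Ric.inChart I g.form p) (extChartAt I p p) v v :=
  ric_eq (Ric.goodAt_chart g p) (Eventually.of_forall fun _ _ _ => rfl) v

theorem kpos_toOld {k : ℕ} {g : RicS2.Riem I M} (h : RicS2.KPosRic k g) :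
    Ric.KPosRicci k (toOld g) := by
  intro p e he
  have := h p e he
  simp only [← ric_toOld] at this
  exact this

theorem kpos_toNew {k : ℕ} {g : Ric.RMetric I M} (h : Ric.KPosRicci k g) :
    RicS2.KPosRic k (toNew g) := by
  intro p e he
  have := h p e he
  simp only [← ric_toNew] at this
  exact this

theorem kPos_of_pos {g : RicS2.Riem I M} (h : RicS2.PosRic g) {k : ℕ} (hk : 0 < k) :
    RicS2.KPosRic k g := by
  intro p e he
  have hne : (Finset.univ : Finset (Fin k)).Nonempty := ⟨⟨0, hk⟩, Finset.mem_univ _⟩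
  refine Finset.sum_pos (fun i _ => h p (e i) ?_) hne
  intro h0
  have h1 := he i i
  rw [if_pos rfl] at h1
  have h2 : clmForm g ((extChartAt I p).symm (extChartAt I p p))
      (Ric.dsymm I p (extChartAt I p p) (e i)) (Ric.dsymm I p (extChartAt I p p) (e i)) = 1 := h1
  rw [h0, map_zero, map_zero] at h2
  exact zero_ne_one h2

end manifolds

/-- **Main theorem** in terms of `Stmt.lean`. -/
theorem main {m : ℕ} (hm : 2 ≤ m) {N : Type*} [TopologicalSpace N]
    [ChartedSpace (EuclideanSpace ℝ (Fin m)) N] [IsManifold (𝓡 m) 1 N]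
    (g : RicS2.RiemSN m N) (hg : RicS2.SO3Invariant g ∨ RicS2.ConstSlices g)
    (hR : RicS2.PosRicSN g ∨ RicS2.KPosRicSN m g) : ∃ h : RicS2.RiemN m N, RicS2.PosScalN h := by
  have hR' : RicS2.KPosRic m g := by
    rcases hR with h | h
    · exact kPos_of_pos h (by omega)
    · exact h
  have hg' : Ric.SO3Invariant (toOld g) ∨ Ric.OrthConst (toOld g) := by
    rcases hg with h | h
    · left
      intro A hA x y u u' v v'
      exact h ⟨A, hA⟩ x y u v u' v'
    · right
      exact ⟨fun x y u v => h.1 x y u v, fun x x' y v v' => h.2 x x' y v v'⟩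
  obtain ⟨h, hh⟩ := Ric.main hm (toOld g) hg' (kpos_toOld hR')
  refine ⟨toNew h, ?_⟩
  have hfin : m = Module.finrank ℝ (EuclideanSpace ℝ (Fin m)) := by simp
  have : Ric.KPosRicci m h := by
    have := hh
    unfold Ric.PosScalarN Ric.PosScalar at this
    rwa [← hfin] at this
  exact kpos_toNew this

end Pool.Agent.Helper23.RicBridge
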