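import Mathlib
import Pool.Agent.Helper23.Ric.Stmt
import Pool.Agent.Helper23.Ric.Bridge

/-! Metrics of positive Ricci curvature on `S² × N` which are invariant under the rotations of
`S²`, or for which `S² × N → N` is a Riemannian submersion with horizontal spaces `T N`: they
exist only if `N` admits a metric of positive scalar curvature. -/

namespace Pool.Agent.Helper23.RicOld.InvariantMetrics

open scoped ContDiff Manifold
open Pool.Agent.Helper23.RicS2

/-- Let `N` be a smooth manifold of dimension `m ≥ 2` and `g` a smooth Riemannian metric on
`S² × N` which is invariant under the rotations of `S²`, or for which the two factors are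
orthogonal and all slices `{x} × N` carry the same metric. If `g` has positive Ricci curvature, or
only the sum of its Ricci curvatures over every orthonormal `m`-frame is positive, then `N` admits
a smooth Riemannian metric of positive scalar curvature. -/
theorem result {m : ℕ} (hm : 2 ≤ m) {N : Type*} [TopologicalSpace N]
    [ChartedSpace (EuclideanSpace ℝ (Fin m)) N] [IsManifold (𝓡 m) ∞ N]
    (g : RiemSN m N) (hg : SO3Invariant g ∨ ConstSlices g) (hR : PosRicSN g ∨ KPosRicSN m g) :
    ∃ h : RiemN m N, PosScalN h := by
  have : IsManifold (𝓡 m) 1 N := IsManifold.of_le (n := ∞) (by simp)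
  exact Pool.Agent.Helper23.RicBridge.main hm g hg hR

end Pool.Agent.Helper23.RicOld.InvariantMetrics
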